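import Pool.Agent.R719.WD.Main

set_option autoImplicit false
set_option linter.unusedSectionVars false

/-! Weighted dominance over arbitrary groups: the holonomy is trivial. -/

namespace Pool.Agent.R719.WD

open Matrix TH57.Thr TH6.LF TH6.CX Pool.Agent.Y75.Th Pool.Agent.Y35.KC.TTm Pool.Agent.R719.DD

variable {Γ : Type} [Group Γ] {κ : Type} [Fintype κ] [DecidableEq κ]

theorem coeff_mul_eq (y z : MonoidAlgebra ℤ Γ) (x : Γ) :
    (y * z).coeff x = ∑ g ∈ y.coeff.support, y.coeff g * z.coeff (g⁻¹ * x) := by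
  classical
  have h1 : y = ∑ g ∈ y.coeff.support, MonoidAlgebra.single g (y.coeff g) := by
    ext h
    rw [MonoidAlgebra.coeff_sum, Finsupp.finsetSum_apply]
    simp only [MonoidAlgebra.coeff_single]
    rw [Finset.sum_congr rfl fun g _ => Finsupp.single_apply, Finset.sum_ite_eq']
    by_cases hh : h ∈ y.coeff.support
    · rw [if_pos hh]
    · rw [if_neg hh]; exact Finsupp.notMem_support_iff.1 hh
  conv_lhs => rw [h1]
  rw [Finset.sum_mul, MonoidAlgebra.coeff_sum, Finsupp.finsetSum_apply]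
  exact Finset.sum_congr rfl fun g _ => MonoidAlgebra.coeff_single_mul_apply _ _ _ _

/-- the convolution of the absolute values -/
noncomputable def cv (y z : MonoidAlgebra ℤ Γ) (x : Γ) : ℤ :=
  ∑ g ∈ y.coeff.support, |y.coeff g| * |z.coeff (g⁻¹ * x)|

theorem abs_coeff_mul_le (y z : MonoidAlgebra ℤ Γ) (x : Γ) :
    |(y * z).coeff x| ≤ cv y z x := by
  rw [coeff_mul_eq]
  refine (Finset.abs_sum_le_sum_abs _ _).trans (le_of_eq ?_)
  exact Finset.sum_congr rfl fun g _ => abs_mul _ _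

theorem sum_cv_le (y z : MonoidAlgebra ℤ Γ) (T : Finset Γ) :
    ∑ x ∈ T, cv y z x ≤ (l1 y : ℤ) * l1 z := by
  classical
  unfold cv
  rw [Finset.sum_comm, l1_abs y, Finset.sum_mul]
  refine Finset.sum_le_sum fun g _ => ?_
  rw [← Finset.mul_sum]
  refine mul_le_mul_of_nonneg_left ?_ (abs_nonneg _)
  have h1 := sum_le_l1 z (T.image fun x => g⁻¹ * x)
  rw [Finset.sum_image (fun a _ b _ hab => mul_left_cancel hab)] at h1
  exact h1

section unit

variable (A : (Matrix κ κ (MonoidAlgebra ℤ Γ))ˣ) {p : κ → ℝ} (h : WDom A.val p)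

include h

/-- the norm equation holds for every coefficient -/
theorem exact_coeff (i j : κ) (hij : 0 < NN A.val i j) (x : Γ) :
    (A.val j j).coeff 1 * |(A⁻¹.val j i).coeff x| = |((1 : Matrix κ κ (MonoidAlgebra ℤ Γ)) j i).coeff x|
      + ∑ k, cv (Ao A.val j k) (A⁻¹.val k i) x := by
  classical
  have ha := h.a_nonneg j
  have hle : ∀ y, (A.val j j).coeff 1 * |(A⁻¹.val j i).coeff y|
      ≤ |((1 : Matrix κ κ (MonoidAlgebra ℤ Γ)) j i).coeff y|
      + ∑ k, cv (Ao A.val j k) (A⁻¹.val k i) y := by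
    intro y
    have h2 : (MonoidAlgebra.single 1 ((A.val j j).coeff 1) * A⁻¹.val j i).coeff y
        = ((1 : Matrix κ κ (MonoidAlgebra ℤ Γ)) j i
          - ∑ k, Ao A.val j k * A⁻¹.val k i).coeff y := by rw [inv_eq A j i]
    rw [MonoidAlgebra.coeff_single_mul_apply, inv_one, one_mul] at h2
    have h3 : ((1 : Matrix κ κ (MonoidAlgebra ℤ Γ)) j i
        - ∑ k, Ao A.val j k * A⁻¹.val k i).coeff y
        = ((1 : Matrix κ κ (MonoidAlgebra ℤ Γ)) j i).coeff y
          - ∑ k, (Ao A.val j k * A⁻¹.val k i).coeff y := by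
      rw [MonoidAlgebra.coeff_sub, Finsupp.sub_apply, MonoidAlgebra.coeff_sum,
        Finsupp.finsetSum_apply]
    rw [h3] at h2
    rw [← abs_of_nonneg ha, ← abs_mul, h2]
    refine (abs_sub _ _).trans (add_le_add le_rfl ?_)
    refine (Finset.abs_sum_le_sum_abs _ _).trans (Finset.sum_le_sum fun k _ => ?_)
    exact abs_coeff_mul_le _ _ _
  refine le_antisymm (hle x) ?_
  by_contra hlt
  push Not at hlt
  set T : Finset Γ := insert x (insert 1 (A⁻¹.val j i).coeff.support) with hT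
  have h1 := norm_row A h i j hij
  have h2 : ∑ y ∈ T, (A.val j j).coeff 1 * |(A⁻¹.val j i).coeff y|
      < ∑ y ∈ T, (|((1 : Matrix κ κ (MonoidAlgebra ℤ Γ)) j i).coeff y|
      + ∑ k, cv (Ao A.val j k) (A⁻¹.val k i) y) :=
    Finset.sum_lt_sum (fun y _ => hle y) ⟨x, Finset.mem_insert_self _ _, hlt⟩
  rw [← Finset.mul_sum, ← l1_cast (A⁻¹.val j i) T (fun g hg =>
    Finset.mem_insert_of_mem (Finset.mem_insert_of_mem hg)), Finset.sum_add_distrib,
    Finset.sum_comm] at h2
  have h3 := sum_le_l1 ((1 : Matrix κ κ (MonoidAlgebra ℤ Γ)) j i) T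
  have h4 : ∑ k, ∑ y ∈ T, cv (Ao A.val j k) (A⁻¹.val k i) y
      ≤ ∑ k, (l1 (Ao A.val j k) : ℤ) * l1 (A⁻¹.val k i) :=
    Finset.sum_le_sum fun k _ => sum_cv_le _ _ _
  have h5 := l1_one_apply (Γ := Γ) j i
  have h6 : (l1 ((1 : Matrix κ κ (MonoidAlgebra ℤ Γ)) j i) : ℤ) = if j = i then 1 else 0 := by
    exact_mod_cast h5
  linarith

/-- closed paths form a group -/
theorem Pth.torsion {i : κ} {g : Γ} (hP : Pth A.val i i g) : ∃ n : ℕ, 0 < n ∧ g ^ n = 1 := by
  have h1 : ∀ n : ℕ, g ^ n ∈ (A⁻¹.val i i).coeff.support := fun n =>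
    Finsupp.mem_support_iff.2 ((hP.pow n).supp A h (NN_diag_pos A h i))
  have h2 : ¬ Function.Injective (fun n : ℕ => (⟨g ^ n, h1 n⟩ :
      ((A⁻¹.val i i).coeff.support : Set Γ))) := not_injective_infinite_finite _
  rw [Function.not_injective_iff] at h2
  obtain ⟨a, b, hab, hne⟩ := h2
  have h3 : g ^ a = g ^ b := congrArg Subtype.val hab
  rcases lt_or_gt_of_ne hne with h4 | h4
  · refine ⟨b - a, Nat.sub_pos_of_lt h4, ?_⟩
    have h5 : g ^ b = g ^ a * g ^ (b - a) := by rw [← pow_add]; congr 1; omega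
    rw [h5] at h3
    exact (mul_eq_left.1 h3.symm)
  · refine ⟨a - b, Nat.sub_pos_of_lt h4, ?_⟩
    have h5 : g ^ a = g ^ b * g ^ (a - b) := by rw [← pow_add]; congr 1; omega
    rw [h5] at h3
    exact (mul_eq_left.1 h3)

theorem Pth.inv {i : κ} {g : Γ} (hP : Pth A.val i i g) : Pth A.val i i g⁻¹ := by
  obtain ⟨n, hn, h1⟩ := hP.torsion A h
  have h2 : g⁻¹ = g ^ (n - 1) := by
    rw [inv_eq_iff_mul_eq_one, ← pow_succ']
    rw [Nat.sub_add_cancel hn, h1]
  rw [h2]
  exact hP.pow _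

/-- the columns of the inverse comparison matrix are dominated -/
theorem NN_col (b k : κ) : NN A.val k b * p b ≤ NN A.val b b * p k := by
  have h1 := mono h.good (by rw [det_cmR A h]; exact one_ne_zero)
    (fun l => min (NN A.val l b * p b) (NN A.val b b * p l) - NN A.val l b * p b) (fun i => ?_) k
  · have h2 := min_le_right (NN A.val k b * p b) (NN A.val b b * p k)
    linarith
  have h2 := congrFun (congrFun (mul_NN A h) i) b
  rw [Matrix.mul_apply] at h2
  have h3 : ∑ l, cmR A.val i l * (min (NN A.val l b * p b) (NN A.val b b * p l)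
      - NN A.val l b * p b) = ∑ l, cmR A.val i l * min (NN A.val l b * p b) (NN A.val b b * p l)
        - (∑ l, cmR A.val i l * NN A.val l b) * p b := by
    rw [Finset.sum_mul, ← Finset.sum_sub_distrib]
    exact Finset.sum_congr rfl fun l _ => by ring
  rw [h3, h2]
  by_cases hc : NN A.val i b * p b ≤ NN A.val b b * p i
  · have h4 : ∑ l, cmR A.val i l * (NN A.val l b * p b)
        ≤ ∑ l, cmR A.val i l * min (NN A.val l b * p b) (NN A.val b b * p l) := by
      refine Finset.sum_le_sum fun l _ => ?_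
      by_cases hl : i = l
      · subst hl
        rw [min_eq_left hc]
      · exact mul_le_mul_of_nonpos_left (min_le_left _ _) (h.good.off i l hl)
    have h5 : ∑ l, cmR A.val i l * (NN A.val l b * p b)
        = (∑ l, cmR A.val i l * NN A.val l b) * p b := by
      rw [Finset.sum_mul]
      exact Finset.sum_congr rfl fun l _ => by ring
    rw [h5, h2] at h4
    linarith
  · push Not at hc
    have hib : i ≠ b := by
      rintro rfl
      exact lt_irrefl _ hc
    rw [Matrix.one_apply_ne hib]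
    have h4 : ∑ l, cmR A.val i l * (NN A.val b b * p l)
        ≤ ∑ l, cmR A.val i l * min (NN A.val l b * p b) (NN A.val b b * p l) := by
      refine Finset.sum_le_sum fun l _ => ?_
      by_cases hl : i = l
      · subst hl
        rw [min_eq_right hc.le]
      · exact mul_le_mul_of_nonpos_left (min_le_right _ _) (h.good.off i l hl)
    have h5 : ∑ l, cmR A.val i l * (NN A.val b b * p l)
        = NN A.val b b * ∑ l, cmR A.val i l * p l := by
      rw [Finset.mul_sum]
      exact Finset.sum_congr rfl fun l _ => by ring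
    have h6 := h.good.row i
    have h7 : 0 ≤ NN A.val b b * ∑ l, cmR A.val i l * p l := mul_nonneg (NN_nonneg A h b b) h6
    rw [h5] at h4
    linarith

theorem Pth.step (C : κ → Prop) (hC : ∀ j k, C j → C k → 0 < NN A.val j k)
    (hcl : ∀ j k, C j → cmR A.val j k ≠ 0 → C k) {b : κ} (hb : C b) {j k : κ} (hj : C j)
    {g x : Γ} (hx : Pth A.val b j x) (hg : (Ao A.val j k).coeff g ≠ 0) :
    C k ∧ Pth A.val b k (g⁻¹ * x) := by
  have hk : C k := by
    by_cases hjk : j = k
    · rwa [← hjk]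
    · exact hcl j k hj (cmR_ne A j k h g hjk hg)
  refine ⟨hk, ?_⟩
  obtain ⟨u, hu⟩ := exists_pth A h b k (hC k b hk hb)
  obtain ⟨v, hv⟩ := exists_pth A h j b (hC b j hb hj)
  have h1 : Pth A.val b b (v * x) := hx.concat hv
  have h2 : Pth A.val b b (v * (g * u)) := (Pth.cons hg hu).concat hv
  have h3 := (h1.concat (h2.inv A h)).concat hu
  have h4 : u * ((v * (g * u))⁻¹ * (v * x)) = g⁻¹ * x := by group
  rwa [h4] at h3

/-- closed paths have trivial holonomy -/
theorem Pth.trivial_min (C : κ → Prop) (hC : ∀ j k, C j → C k → 0 < NN A.val j k)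
    (hcl : ∀ j k, C j → cmR A.val j k ≠ 0 → C k) (b : κ) (hb : C b)
    (hmin : ∀ k, C k → NN A.val b b * p k ≤ NN A.val k k * p b) {g : Γ}
    (hP : Pth A.val b b g) : g = 1 := by
  classical
  by_contra hg
  let S : κ → Set ℕ := fun j => {n | ∃ x, Pth A.val b j x ∧ ((A⁻¹.val j b).coeff x).natAbs = n}
  let m : κ → ℕ := fun j => if C j then sInf (S j) else 0
  have hne : ∀ j, C j → (S j).Nonempty := by
    intro j hj
    obtain ⟨u, hu⟩ := exists_pth A h b j (hC j b hj hb)
    exact ⟨_, u, hu, rfl⟩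
  have hm1 : ∀ j, C j → ∃ x, Pth A.val b j x ∧ |(A⁻¹.val j b).coeff x| = (m j : ℤ) := by
    intro j hj
    obtain ⟨x, hx1, hx2⟩ := Nat.sInf_mem (hne j hj)
    refine ⟨x, hx1, ?_⟩
    have : m j = sInf (S j) := if_pos hj
    rw [this, ← hx2, Int.natCast_natAbs]
  have hm2 : ∀ j, C j → ∀ x, Pth A.val b j x → (m j : ℤ) ≤ |(A⁻¹.val j b).coeff x| := by
    intro j hj x hx
    have h1 : m j = sInf (S j) := if_pos hj
    have h2 : sInf (S j) ≤ ((A⁻¹.val j b).coeff x).natAbs := Nat.sInf_le ⟨x, hx, rfl⟩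
    rw [h1, ← Int.natCast_natAbs]
    exact_mod_cast h2
  have hm3 : ∀ j, C j → 0 < (m j : ℤ) := by
    intro j hj
    obtain ⟨x, hx1, hx2⟩ := hm1 j hj
    rw [← hx2]
    exact abs_pos.2 (hx1.supp A h (hC b j hb hj))
  have hm4 : ∀ j, ¬ C j → m j = 0 := fun j hj => if_neg hj
  -- the superharmonic vector
  let y : κ → ℤ := fun j => (A.val j j).coeff 1 * m j - ∑ k, (l1 (Ao A.val j k) : ℤ) * m k
  have hy : ∀ j, C j → 0 ≤ y j := by
    intro j hj
    obtain ⟨x, hx1, hx2⟩ := hm1 j hj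
    have h1 := exact_coeff A h b j (hC b j hb hj) x
    rw [hx2] at h1
    have h2 : ∑ k, (l1 (Ao A.val j k) : ℤ) * m k
        ≤ ∑ k, cv (Ao A.val j k) (A⁻¹.val k b) x := by
      refine Finset.sum_le_sum fun k _ => ?_
      rw [l1_abs, Finset.sum_mul]
      refine Finset.sum_le_sum fun g' hg' => mul_le_mul_of_nonneg_left ?_ (abs_nonneg _)
      obtain ⟨h3, h4⟩ := Pth.step A h C hC hcl hb hj hx1 (Finsupp.mem_support_iff.1 hg')
      exact hm2 k h3 _ h4
    have h3 := abs_nonneg (((1 : Matrix κ κ (MonoidAlgebra ℤ Γ)) j b).coeff x)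
    simp only [y]
    linarith
  have hyR : ∀ j, (y j : ℝ) = ∑ k, cmR A.val j k * m k := by
    intro j
    have h1 : ∑ k, cmR A.val j k * (m k : ℝ) = ∑ k, ((if j = k then ((A.val j j).coeff 1 : ℝ) else 0)
        * m k - (l1 (Ao A.val j k) : ℝ) * m k) :=
      Finset.sum_congr rfl fun k _ => by rw [cmR_Ao A h]; ring
    rw [h1, Finset.sum_sub_distrib]
    simp only [ite_mul, zero_mul]
    rw [Finset.sum_ite_eq Finset.univ j, if_pos (Finset.mem_univ j)]
    simp only [y]
    push_cast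
    ring
  have hinv : ∀ k, C k → (m k : ℝ) = ∑ j, NN A.val k j * y j := by
    intro k hk
    have h1 : ∑ j, NN A.val k j * (y j : ℝ) = ∑ l, (NN A.val * cmR A.val) k l * m l := by
      simp only [hyR, Finset.mul_sum, Matrix.mul_apply, Finset.sum_mul]
      rw [Finset.sum_comm]
      refine Finset.sum_congr rfl fun l _ => Finset.sum_congr rfl fun j _ => by ring
    rw [h1, NN_mul A h]
    simp [Matrix.one_apply]
  have hz : ∀ k, C k → ∀ j, ¬ C j → NN A.val k j = 0 := fun k hk j hj =>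
    NN_closed A h C (fun a c ha hc => by
      by_contra h1
      exact hc (hcl a c ha h1)) k j hk hj
  obtain ⟨k, hk, hyk⟩ : ∃ k, C k ∧ 1 ≤ y k := by
    by_contra hh
    push Not at hh
    have h1 := hinv b hb
    have h2 : ∑ j, NN A.val b j * (y j : ℝ) = 0 := by
      refine Finset.sum_eq_zero fun j _ => ?_
      by_cases hj : C j
      · have h3 : y j = 0 := le_antisymm (Int.lt_add_one_iff.1 (hh j hj)) (hy j hj)
        rw [h3, Int.cast_zero, mul_zero]
      · rw [hz b hb j hj, zero_mul]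
    rw [h2] at h1
    have h3 := hm3 b hb
    have h4 : m b = 0 := by exact_mod_cast h1
    rw [h4] at h3
    exact lt_irrefl _ h3
  have h1 : NN A.val k k ≤ m k := by
    rw [hinv k hk, ← Finset.add_sum_erase Finset.univ _ (Finset.mem_univ k)]
    have h2 : (0 : ℝ) ≤ ∑ j ∈ Finset.univ.erase k, NN A.val k j * (y j : ℝ) := by
      refine Finset.sum_nonneg fun j _ => ?_
      by_cases hj : C j
      · exact mul_nonneg (NN_nonneg A h k j) (by exact_mod_cast hy j hj)
      · rw [hz k hk j hj, zero_mul]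
    have h3 : (1 : ℝ) ≤ y k := by exact_mod_cast hyk
    have h4 := NN_nonneg A h k k
    nlinarith
  obtain ⟨u, hu⟩ := exists_pth A h b k (hC k b hk hb)
  have hug : u ≠ u * g := fun hh => hg (mul_eq_left.1 hh.symm)
  have h2 := sum_le_l1 (A⁻¹.val k b) {u, u * g}
  rw [Finset.sum_pair hug] at h2
  have h3 := hm2 k hk _ hu
  have h4 := hm2 k hk _ (hP.concat hu)
  have h5 : (2 : ℤ) * m k ≤ l1 (A⁻¹.val k b) := by linarith
  have h6 : (2 : ℝ) * m k ≤ l1 (A⁻¹.val k b) := by exact_mod_cast h5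
  have h7 := Gn_le A h k b
  have h7' : (l1 (A⁻¹.val k b) : ℝ) ≤ NN A.val k b := h7
  have h8 := NN_col A h b k
  have h9 := hmin k hk
  have h10 := h.pos b
  have h11 := hC k k hk hk
  have h12 : 2 * NN A.val k k * p b ≤ NN A.val k b * p b :=
    mul_le_mul_of_nonneg_right (by linarith) h10.le
  nlinarith [mul_pos h11 h10]

/-- the gauge on a component -/
theorem exists_gauge' (C : κ → Prop) (hC0 : ∃ i, C i)
    (hC : ∀ j k, C j → C k → 0 < NN A.val j k) (hcl : ∀ j k, C j → cmR A.val j k ≠ 0 → C k) :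
    ∃ w : κ → Γ, ∀ j k, C j → C k → ∀ g, (A.val j k).coeff g ≠ 0 → g = w j * (w k)⁻¹ := by
  classical
  have hfn : (Finset.univ.filter fun k => C k).Nonempty := by
    obtain ⟨i, hi⟩ := hC0
    exact ⟨i, Finset.mem_filter.2 ⟨Finset.mem_univ _, hi⟩⟩
  obtain ⟨b, hb1, hb2⟩ := Finset.exists_min_image (Finset.univ.filter fun k => C k)
    (fun k => NN A.val k k / p k) hfn
  have hb : C b := (Finset.mem_filter.1 hb1).2
  have hmin : ∀ k, C k → NN A.val b b * p k ≤ NN A.val k k * p b := by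
    intro k hk
    have h1 := hb2 k (Finset.mem_filter.2 ⟨Finset.mem_univ _, hk⟩)
    rw [div_le_div_iff₀ (h.pos b) (h.pos k)] at h1
    exact h1
  have h1 : ∀ j, ∃ g, C j → Pth A.val b j g := by
    intro j
    by_cases hj : C j
    · obtain ⟨g, hg⟩ := exists_pth A h b j (hC j b hj hb)
      exact ⟨g, fun _ => hg⟩
    · exact ⟨1, fun hh => absurd hh hj⟩
  choose w hw using h1
  have h2 : ∀ j k, C j → C k → ∀ g, (Ao A.val j k).coeff g ≠ 0 → g = w j * (w k)⁻¹ := by
    intro j k hj hk g hg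
    obtain ⟨v, hv⟩ := exists_pth A h j b (hC b j hb hj)
    have e1 : v * w j = 1 := Pth.trivial_min A h C hC hcl b hb hmin ((hw j hj).concat hv)
    have e2 : v * (g * w k) = 1 :=
      Pth.trivial_min A h C hC hcl b hb hmin ((Pth.cons hg (hw k hk)).concat hv)
    have e3 : w j = g * w k := mul_left_cancel (e1.trans e2.symm)
    rw [e3, mul_inv_cancel_right]
  refine ⟨w, fun j k hj hk g hg => ?_⟩
  by_cases hA : (Ao A.val j k).coeff g = 0
  · rw [Ao_apply] at hA
    by_cases hjk : j = k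
    · subst hjk
      rw [if_pos rfl] at hA
      by_cases hg1 : g = 1
      · rw [hg1, mul_inv_cancel]
      · exfalso
        apply hg
        have e1 : (A.val j j - MonoidAlgebra.single 1 ((A.val j j).coeff 1)).coeff g
            = (A.val j j).coeff g - (Finsupp.single 1 ((A.val j j).coeff 1) : Γ →₀ ℤ) g := by simp
        rw [e1, Finsupp.single_apply, if_neg (Ne.symm hg1), sub_zero] at hA
        exact hA
    · rw [if_neg hjk, sub_zero] at hA
      exact absurd hA hg
  · exact h2 j k hj hk g hA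

end unit

/-- the main theorem for arbitrary groups -/
theorem TT_wdom' :
    ∀ (n : ℕ) (κ : Type) [Fintype κ] [DecidableEq κ], Fintype.card κ = n →
    ∀ (A : (Matrix κ κ (MonoidAlgebra ℤ Γ))ˣ) (p : κ → ℝ), WDom A.val p →
      TT (TU Γ) A ∧ Blk A.val := by
  intro n
  induction n using Nat.strong_induction_on with
  | _ n ih =>
  intro κ _ _ hn A p h
  classical
  by_cases hne : Nonempty κ
  swap
  · have hκ : IsEmpty κ := not_nonempty_iff.1 hne
    have : A = 1 := Units.ext (by ext1 i; exact isEmptyElim i)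
    refine ⟨by rw [this]; exact TT_one _, fun _ => 0, fun _ => 1, fun i => isEmptyElim i,
      fun i => isEmptyElim i⟩
  obtain ⟨C, hC1, hC2, hC3⟩ := exists_comp A h
  obtain ⟨w, hw⟩ := exists_gauge' A h C hC1 hC2 hC3
  let e : {k // C k} ⊕ {k // ¬ C k} ≃ κ := Equiv.sumCompl C
  set A' := Units.map (re e) A with hA'
  let A1 : Matrix {k // C k} {k // C k} (MonoidAlgebra ℤ Γ) :=
    A.val.submatrix Subtype.val Subtype.val
  let A3 : Matrix {k // ¬ C k} {k // C k} (MonoidAlgebra ℤ Γ) :=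
    A.val.submatrix Subtype.val Subtype.val
  let A4 : Matrix {k // ¬ C k} {k // ¬ C k} (MonoidAlgebra ℤ Γ) :=
    A.val.submatrix Subtype.val Subtype.val
  have hA2 : ∀ j k, C j → ¬ C k → A.val j k = 0 := by
    intro j k hj hk
    have h1 : cmR A.val j k = 0 := by
      by_contra h2
      exact hk (hC3 j k hj h2)
    have hjk : j ≠ k := by
      rintro rfl
      exact hk hj
    rw [cmR_apply, if_neg hjk, zero_sub, neg_eq_zero] at h1
    exact (l1_zero_iff _).1 (by exact_mod_cast h1)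
  have hA'v : A'.val = fromBlocks A1 0 A3 A4 := by
    ext1 x y
    rcases x with x | x <;> rcases y with y | y
    · rfl
    · exact hA2 x y x.2 y.2
    · rfl
    · rfl
  set G' := A'⁻¹.val with hG'
  have hm1 : fromBlocks A1 0 A3 A4 * fromBlocks G'.toBlocks₁₁ G'.toBlocks₁₂ G'.toBlocks₂₁
      G'.toBlocks₂₂ = 1 := by
    rw [fromBlocks_toBlocks, ← hA'v, hG', A'.mul_inv]
  have hm2 : fromBlocks G'.toBlocks₁₁ G'.toBlocks₁₂ G'.toBlocks₂₁ G'.toBlocks₂₂
      * fromBlocks A1 0 A3 A4 = 1 := by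
    rw [fromBlocks_toBlocks, ← hA'v, hG', A'.inv_mul]
  rw [fromBlocks_multiply, ← fromBlocks_one, fromBlocks_inj] at hm1 hm2
  obtain ⟨m11, m12, m13, m14⟩ := hm1
  obtain ⟨m21, m22, m23, m24⟩ := hm2
  rw [Matrix.zero_mul, add_zero] at m11 m12
  rw [Matrix.mul_zero, zero_add] at m24
  -- the first block
  have he : ∀ _ : {k // C k}, (1 : ℤ) * 1 = 1 := fun _ => one_mul 1
  let W := dgs (fun k : {k // C k} => w k) (fun _ => 1) he
  obtain ⟨U1, hU1, hU2⟩ := unit_of_trivial (W⁻¹.val * A1 * W.val)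
    (W⁻¹.val * G'.toBlocks₁₁ * W.val) (by
      intro i j x hx
      rw [dgs_conj A1 (fun k : {k // C k} => w k) he i j x] at hx
      have h1 := hw i j i.2 j.2 _ hx
      have h2 := mul_right_cancel h1
      exact mul_eq_left.1 h2) (by
      calc W⁻¹.val * A1 * W.val * (W⁻¹.val * G'.toBlocks₁₁ * W.val)
          = W⁻¹.val * A1 * (W.val * W⁻¹.val) * G'.toBlocks₁₁ * W.val := by
            simp only [Matrix.mul_assoc]
        _ = W⁻¹.val * (A1 * G'.toBlocks₁₁) * W.val := by
            rw [W.mul_inv, Matrix.mul_one, Matrix.mul_assoc W⁻¹.val A1]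
        _ = 1 := by rw [m11, Matrix.mul_one, W.inv_mul])
  have ha1 : (W * U1 * W⁻¹).val = A1 := by
    rw [Units.val_mul, Units.val_mul, hU1]
    calc W.val * (W⁻¹.val * A1 * W.val) * W⁻¹.val
        = (W.val * W⁻¹.val) * A1 * (W.val * W⁻¹.val) := by simp only [Matrix.mul_assoc]
      _ = A1 := by rw [W.mul_inv, Matrix.one_mul, Matrix.mul_one]
  have hWT : TT (TU Γ) W := TT_of_mem _ _ (dgs_mem _ _ _)
  have ht1 : TT (TU Γ) (W * U1 * W⁻¹) :=
    TT_mul _ _ _ (TT_mul _ _ _ hWT hU2) (TT_inv _ _ hWT)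
  -- the second block
  have hG2 : G'.toBlocks₁₂ = 0 := by
    calc G'.toBlocks₁₂ = ((W * U1 * W⁻¹)⁻¹.val * (W * U1 * W⁻¹).val) * G'.toBlocks₁₂ := by
          rw [Units.inv_mul, Matrix.one_mul]
      _ = 0 := by rw [Matrix.mul_assoc, ha1, m12, Matrix.mul_zero]
  rw [hG2, Matrix.mul_zero, zero_add] at m14
  let U4 : (Matrix {k // ¬ C k} {k // ¬ C k} (MonoidAlgebra ℤ Γ))ˣ :=
    ⟨A4, G'.toBlocks₂₂, m14, m24⟩
  have hcard : Fintype.card {k // ¬ C k} < n := by
    rw [← hn]
    obtain ⟨i, hi⟩ := hC1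
    exact Fintype.card_subtype_lt (x := i) (fun hh => hh hi)
  obtain ⟨ht4, r, w', hr1, hr2⟩ : TT (TU Γ) U4 ∧ Blk U4.val := by
    refine ih _ hcard _ rfl U4 (fun k => p k) ⟨fun k => h.pos k, fun i => ?_⟩
    refine le_trans ?_ (h.row i)
    have h1 := Fintype.sum_subtype_add_sum_subtype (fun k => ¬ C k)
      (fun k => (l1 (A.val i k) : ℝ) * p k)
    rw [← h1]
    have h2 : (0 : ℝ) ≤ ∑ k : {k // ¬ ¬ C k}, (l1 (A.val i k) : ℝ) * p k :=
      Finset.sum_nonneg fun k _ => mul_nonneg (Nat.cast_nonneg _) (h.pos _).le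
    have h3 : ∑ k : {k // ¬ C k}, (l1 (U4.val i k) : ℝ) * p k
        = ∑ k : {k // ¬ C k}, (l1 (A.val i k) : ℝ) * p k := rfl
    rw [h3]
    linarith
  have ht : TT (TU Γ) A' := TT_tri (TU Γ) (W * U1 * W⁻¹) U4 A3 A' (by rw [hA'v, ha1]) ht1 ht4
  have h5 : A = Units.map (re e.symm) A' := by
    apply Units.ext
    ext1 x y
    change A.val x y = A.val (e (e.symm x)) (e (e.symm y))
    rw [Equiv.apply_symm_apply, Equiv.apply_symm_apply]
  refine ⟨by rw [h5]; exact TT_re _ _ _ ht, fun k => if hk : C k then 0 else r ⟨k, hk⟩ + 1,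
    fun k => if hk : C k then w k else w' ⟨k, hk⟩, fun i j hij => ?_, fun i j hij g hg => ?_⟩
  · dsimp only at hij
    by_cases hi : C i
    · by_cases hj : C j
      · rw [dif_pos hi, dif_pos hj] at hij
        exact absurd hij (lt_irrefl _)
      · exact hA2 i j hi hj
    · by_cases hj : C j
      · rw [dif_neg hi, dif_pos hj] at hij
        exact absurd hij (Nat.not_lt_zero _)
      · rw [dif_neg hi, dif_neg hj] at hij
        exact hr1 ⟨i, hi⟩ ⟨j, hj⟩ (by omega)
  · dsimp only at hij ⊢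
    by_cases hi : C i
    · by_cases hj : C j
      · rw [dif_pos hi, dif_pos hj]
        exact hw i j hi hj g hg
      · rw [dif_pos hi, dif_neg hj] at hij
        omega
    · by_cases hj : C j
      · rw [dif_neg hi, dif_pos hj] at hij
        omega
      · rw [dif_neg hi, dif_neg hj] at hij ⊢
        exact hr2 ⟨i, hi⟩ ⟨j, hj⟩ (by omega) g hg

end Pool.Agent.R719.WD
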