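import Pool.Agent.R719.WD.Hol

set_option autoImplicit false
set_option linter.unusedSectionVars false

/-! Idempotent matrices over integral group rings whose reflection is dominated. -/

namespace Pool.Agent.R719.WD

open Matrix TH57.Thr TH6.LF TH6.CX Pool.Agent.Y75.Th Pool.Agent.Y35.KC.TTm Pool.Agent.R719.DD

variable {Γ : Type} [Group Γ] {κ : Type} [Fintype κ] [DecidableEq κ]

/-- integral idempotents are conjugate to diagonal matrices -/
theorem int_idem (B : Matrix κ κ ℤ) (hB : B * B = B) : ∃ (V : (Matrix κ κ ℤ)ˣ) (I : Finset κ),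
    V.val * B * V⁻¹.val = Matrix.diagonal (fun i => if i ∈ I then 1 else 0) := by
  classical
  let f := Matrix.toLin' B
  have hf : f ∘ₗ f = f := by rw [← Matrix.toLin'_mul, hB]
  have hf' : ∀ x, f (f x) = f x := fun x => by
    have := LinearMap.congr_fun hf x
    exact this
  have hc : IsCompl (LinearMap.range f) (LinearMap.ker f) := by
    rw [isCompl_iff]
    constructor
    · rw [Submodule.disjoint_def]
      rintro x ⟨y, rfl⟩ hx
      have h1 : f (f y) = 0 := hx
      rw [hf'] at h1
      exact h1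
    · rw [codisjoint_iff, eq_top_iff]
      intro x _
      rw [Submodule.mem_sup]
      refine ⟨f x, ⟨x, rfl⟩, x - f x, ?_, by abel⟩
      change f (x - f x) = 0
      rw [map_sub, hf', sub_self]
  let b1 := Module.Free.chooseBasis ℤ (LinearMap.range f)
  let b2 := Module.Free.chooseBasis ℤ (LinearMap.ker f)
  let b := (b1.prod b2).map (Submodule.prodEquivOfIsCompl _ _ hc)
  let e := b.indexEquiv (Pi.basisFun ℤ κ)
  let b' := b.reindex e
  let c := Pi.basisFun ℤ κ
  let V : (Matrix κ κ ℤ)ˣ := ⟨b'.toMatrix c, c.toMatrix b', Module.Basis.toMatrix_mul_toMatrix_flip _ _,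
    Module.Basis.toMatrix_mul_toMatrix_flip _ _⟩
  have hfb : ∀ s, f (b s) = Sum.elim (fun _ => b s) (fun _ => 0) s := by
    rintro (s | s)
    · have h1 : b (Sum.inl s) = (b1 s : κ → ℤ) := by
        have h0 : b (Sum.inl s) = Submodule.prodEquivOfIsCompl _ _ hc (b1 s, 0) := by
          simp only [b, Module.Basis.map_apply]
          congr 1
          exact Prod.ext (Module.Basis.prod_apply_inl_fst _ _ _) (Module.Basis.prod_apply_inl_snd _ _ _)
        rw [h0, Submodule.coe_prodEquivOfIsCompl']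
        simp
      obtain ⟨y, hy⟩ := (b1 s).2
      simp only [Sum.elim_inl]
      rw [h1, ← hy, hf']
    · have h1 : b (Sum.inr s) = (b2 s : κ → ℤ) := by
        have h0 : b (Sum.inr s) = Submodule.prodEquivOfIsCompl _ _ hc (0, b2 s) := by
          simp only [b, Module.Basis.map_apply]
          congr 1
          exact Prod.ext (Module.Basis.prod_apply_inr_fst _ _ _) (Module.Basis.prod_apply_inr_snd _ _ _)
        rw [h0, Submodule.coe_prodEquivOfIsCompl']
        simp
      simp only [Sum.elim_inr]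
      rw [h1]
      exact (b2 s).2
  refine ⟨V, Finset.univ.filter fun i => (e.symm i).isLeft, ?_⟩
  have h1 : V.val * B * V⁻¹.val = LinearMap.toMatrix b' b' f := by
    have h2 := basis_toMatrix_mul_linearMap_toMatrix_mul_basis_toMatrix (b := b') (b' := c)
      (c := b') (c' := c) f
    have h3 : LinearMap.toMatrix c c f = B := by
      change LinearMap.toMatrix' (Matrix.toLin' B) = B
      exact LinearMap.toMatrix'_toLin' B
    rw [h3] at h2
    exact h2
  rw [h1]
  ext i j
  rw [LinearMap.toMatrix_apply]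
  have h2 : b' j = b (e.symm j) := Module.Basis.reindex_apply _ _ _
  rw [h2, hfb, Matrix.diagonal_apply]
  rcases hj : e.symm j with s | s
  · simp only [Sum.elim_inl]
    have h3 : b (Sum.inl s) = b' j := by rw [h2, hj]
    rw [h3, Module.Basis.repr_self, Finsupp.single_apply]
    by_cases hij : j = i
    · subst hij
      simp [hj]
    · rw [if_neg hij, if_neg (Ne.symm hij)]
  · simp only [Sum.elim_inr]
    rw [map_zero]
    by_cases hij : i = j
    · subst hij
      simp [hj]
    · simp [hij]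

/-- strictly triangular matrices are nilpotent -/
theorem nilp {R : Type} [Ring R] (r : κ → ℕ) (M : Matrix κ κ R)
    (hM : ∀ i j, ¬ (r j < r i) → M i j = 0) : IsNilpotent M := by
  classical
  have h1 : ∀ n : ℕ, ∀ i j, ¬ (r j + n ≤ r i) → (M ^ n) i j = 0 := by
    intro n
    induction n with
    | zero =>
      intro i j hij
      rw [pow_zero, Matrix.one_apply_ne]
      rintro rfl
      exact hij le_rfl
    | succ n ih =>
      intro i j hij
      rw [pow_succ, Matrix.mul_apply]
      refine Finset.sum_eq_zero fun k _ => ?_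
      by_cases hk : r k + n ≤ r i
      · rw [hM k j (fun h2 => hij (by omega)), mul_zero]
      · rw [ih i k hk, zero_mul]
  obtain ⟨R, hR⟩ : ∃ R, ∀ i, r i ≤ R :=
    ⟨Finset.univ.sup r, fun i => Finset.le_sup (Finset.mem_univ i)⟩
  refine ⟨R + 1, ?_⟩
  ext i j
  exact h1 _ i j (by have := hR i; omega)

/-- block triangular idempotents with integral diagonal blocks -/
theorem conj_blk (E : Matrix κ κ (MonoidAlgebra ℤ Γ)) (hE : E * E = E) (hB : Blk E) :
    ∃ (X : (Matrix κ κ (MonoidAlgebra ℤ Γ))ˣ) (I : Finset κ),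
      X.val * E * X⁻¹.val = Matrix.diagonal (fun i => if i ∈ I then 1 else 0) := by
  classical
  obtain ⟨r, w, h1, h2⟩ := hB
  have he : ∀ _ : κ, (1 : ℤ) * 1 = 1 := fun _ => one_mul 1
  let W := dgs w (fun _ => 1) he
  set E' := W⁻¹.val * E * W.val with hE'
  have hc : ∀ i j x, (E' i j).coeff x = (E i j).coeff (w i * x * (w j)⁻¹) :=
    fun i j x => dgs_conj E w he i j x
  have hEE : E' * E' = E' := by
    calc E' * E' = W⁻¹.val * E * (W.val * W⁻¹.val) * E * W.val := by
          rw [hE']; simp only [Matrix.mul_assoc]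
      _ = W⁻¹.val * (E * E) * W.val := by
          rw [W.mul_inv, Matrix.mul_one, Matrix.mul_assoc W⁻¹.val E E]
      _ = E' := by rw [hE]
  have hz : ∀ i j, r i < r j → E' i j = 0 := by
    intro i j hij
    ext x
    rw [hc, h1 i j hij]
    rfl
  let B0 : Matrix κ κ ℤ := Matrix.of fun i j => if r i = r j then augZ (E' i j) else 0
  let ι := Int.castRingHom (MonoidAlgebra ℤ Γ)
  let E0 : Matrix κ κ (MonoidAlgebra ℤ Γ) := B0.map ι
  have hE0 : ∀ i j, E0 i j = if r i = r j then E' i j else 0 := by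
    intro i j
    change ((B0 i j : ℤ) : MonoidAlgebra ℤ Γ) = _
    simp only [B0, Matrix.of_apply]
    by_cases hij : r i = r j
    · rw [if_pos hij, if_pos hij]
      have h3 : E' i j = MonoidAlgebra.single 1 ((E' i j).coeff 1) := by
        ext g
        by_cases hg : g = 1
        · subst hg; simp
        · have h4 : (E' i j).coeff g = 0 := by
            by_contra h
            rw [hc] at h
            have h5 := h2 i j hij _ h
            have h6 := mul_right_cancel h5
            exact hg (mul_eq_left.1 h6)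
          rw [h4, MonoidAlgebra.coeff_single, Finsupp.single_apply, if_neg (Ne.symm hg)]
      have h4 : augZ (MonoidAlgebra.single (1 : Γ) ((E' i j).coeff 1)) = (E' i j).coeff 1 := by
        change MonoidAlgebra.lift ℤ ℤ Γ (1 : Γ →* ℤ) _ = _
        simp
      rw [h3, h4]
      exact MonoidAlgebra.intCast_def _
    · rw [if_neg hij, if_neg hij, Int.cast_zero]
  have hE00 : E0 * E0 = E0 := by
    ext1 i j
    rw [Matrix.mul_apply]
    by_cases hij : r i = r j
    · have h3 : (E' * E') i j = ∑ k, E0 i k * E0 k j := by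
        rw [Matrix.mul_apply]
        refine Finset.sum_congr rfl fun k _ => ?_
        rw [hE0, hE0]
        rcases lt_trichotomy (r i) (r k) with h4 | h4 | h4
        · rw [hz i k h4, if_neg h4.ne, zero_mul, zero_mul]
        · rw [if_pos h4, if_pos (by omega)]
        · rw [hz k j (by omega), if_neg (show ¬ r k = r j by omega), mul_zero, mul_zero]
      rw [← h3, hEE, hE0, if_pos hij]
    · rw [hE0 i j, if_neg hij]
      refine Finset.sum_eq_zero fun k _ => ?_
      rw [hE0, hE0]
      by_cases h4 : r i = r k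
      · rw [if_neg (show ¬ r k = r j by omega), mul_zero]
      · rw [if_neg h4, zero_mul]
  have hB0 : B0 * B0 = B0 := by
    have hinj : Function.Injective ι := by
      intro a b hab
      have h3 := congrArg augZ hab
      have h4 : ∀ n : ℤ, augZ (ι n) = n := by
        intro n
        change augZ ((n : ℤ) : MonoidAlgebra ℤ Γ) = n
        rw [map_intCast, Int.cast_id]
      rwa [h4, h4] at h3
    apply Matrix.map_injective hinj
    change (B0 * B0).map ι = B0.map ι
    rw [Matrix.map_mul]
    exact hE00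
  let N : Matrix κ κ (MonoidAlgebra ℤ Γ) := (2 * E0 - 1) * (E' - E0)
  have hN : ∀ i j, ¬ (r j < r i) → N i j = 0 := by
    intro i j hij
    change ((2 * E0 - 1) * (E' - E0) : Matrix κ κ (MonoidAlgebra ℤ Γ)) i j = 0
    rw [Matrix.mul_apply]
    refine Finset.sum_eq_zero fun k _ => ?_
    by_cases h3 : r i = r k
    · have h4 : (E' - E0) k j = 0 := by
        rw [Matrix.sub_apply, hE0]
        by_cases h5 : r k = r j
        · rw [if_pos h5, sub_self]
        · rw [if_neg h5, hz k j (by omega), sub_zero]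
      rw [h4, mul_zero]
    · have h4 : (2 * E0 - 1 : Matrix κ κ (MonoidAlgebra ℤ Γ)) i k = 0 := by
        have hik : i ≠ k := by
          rintro rfl
          exact h3 rfl
        rw [two_mul, Matrix.sub_apply, Matrix.add_apply, hE0, if_neg h3, Matrix.one_apply_ne hik]
        simp
      rw [h4, zero_mul]
  obtain ⟨u, hu⟩ := (nilp r N hN).isUnit_one_add
  have hu' : u.val = E0 * E' + (1 - E0) * (1 - E') := by
    rw [hu]
    change (1 + (2 * E0 - 1) * (E' - E0) : Matrix κ κ (MonoidAlgebra ℤ Γ)) = _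
    have h3 : (2 * E0 - 1) * (E' - E0) = 2 * (E0 * E') - 2 * (E0 * E0) - E' + E0 := by
      noncomm_ring
    rw [h3, hE00]
    noncomm_ring
  have hu1 : E0 * u.val = u.val * E' := by
    rw [hu']
    have h3 : E0 * (E0 * E' + (1 - E0) * (1 - E')) = (E0 * E0) * E' + (E0 - E0 * E0) * (1 - E') := by
      noncomm_ring
    have h4 : (E0 * E' + (1 - E0) * (1 - E')) * E' = E0 * (E' * E') + (1 - E0) * (E' - E' * E') := by
      noncomm_ring
    rw [h3, h4, hE00, hEE, sub_self, sub_self, zero_mul, mul_zero]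
  obtain ⟨V, I, hV⟩ := int_idem B0 hB0
  let V' : (Matrix κ κ (MonoidAlgebra ℤ Γ))ˣ := Units.map (RingHom.mapMatrix ι).toMonoidHom V
  have hV' : V'.val * E0 * V'⁻¹.val = Matrix.diagonal (fun i => if i ∈ I then 1 else 0) := by
    change V.val.map ι * B0.map ι * V⁻¹.val.map ι = _
    rw [← Matrix.map_mul, ← Matrix.map_mul, hV, Matrix.diagonal_map (map_zero ι)]
    congr 1
    funext i
    by_cases hi : i ∈ I
    · rw [if_pos hi, if_pos hi, map_one]
    · rw [if_neg hi, if_neg hi, map_zero]
  refine ⟨V' * u * W⁻¹, I, ?_⟩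
  have h3 : (V' * u * W⁻¹)⁻¹ = W * u⁻¹ * V'⁻¹ := by group
  rw [h3]
  simp only [Units.val_mul]
  calc V'.val * u.val * W⁻¹.val * E * (W.val * u⁻¹.val * V'⁻¹.val)
      = V'.val * (u.val * (W⁻¹.val * E * W.val)) * u⁻¹.val * V'⁻¹.val := by
        simp only [Matrix.mul_assoc]
    _ = V'.val * (E0 * u.val) * u⁻¹.val * V'⁻¹.val := by rw [← hE', hu1]
    _ = V'.val * E0 * (u.val * u⁻¹.val) * V'⁻¹.val := by simp only [Matrix.mul_assoc]
    _ = _ := by rw [u.mul_inv, Matrix.mul_one, hV']

/-- the reflection of an idempotent -/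
noncomputable def rfl2 (E : Matrix κ κ (MonoidAlgebra ℤ Γ)) (hE : E * E = E) :
    (Matrix κ κ (MonoidAlgebra ℤ Γ))ˣ where
  val := 1 - 2 * E
  inv := 1 - 2 * E
  val_inv := by
    have h : (1 - 2 * E) * (1 - 2 * E) = 1 - 4 * E + 4 * (E * E) := by noncomm_ring
    rw [h, hE]; noncomm_ring
  inv_val := by
    have h : (1 - 2 * E) * (1 - 2 * E) = 1 - 4 * E + 4 * (E * E) := by noncomm_ring
    rw [h, hE]; noncomm_ring

theorem rfl2_coeff [DecidableEq Γ] (E : Matrix κ κ (MonoidAlgebra ℤ Γ)) (hE : E * E = E)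
    (i j : κ) (x : Γ) :
    ((rfl2 E hE).val i j).coeff x = (if i = j ∧ x = 1 then 1 else 0) - 2 * (E i j).coeff x := by
  change ((1 - 2 * E : Matrix κ κ (MonoidAlgebra ℤ Γ)) i j).coeff x = _
  rw [two_mul, Matrix.sub_apply, Matrix.add_apply, MonoidAlgebra.coeff_sub, Finsupp.sub_apply,
    MonoidAlgebra.coeff_add, Finsupp.add_apply, two_mul]
  congr 1
  by_cases hij : i = j
  · subst hij
    rw [Matrix.one_apply_eq, MonoidAlgebra.one_def, MonoidAlgebra.coeff_single,
      Finsupp.single_apply]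
    by_cases hx : x = 1
    · rw [if_pos hx.symm, if_pos ⟨rfl, hx⟩]
    · rw [if_neg (Ne.symm hx), if_neg (fun hh => hx hh.2)]
  · rw [Matrix.one_apply_ne hij, if_neg (fun hh => hij hh.1)]
    rfl

theorem blk_idem (E : Matrix κ κ (MonoidAlgebra ℤ Γ)) (hE : E * E = E) (σ : κ ≃ κ) (g : κ → Γ)
    (p : κ → ℝ) (hp : ∀ j, 0 < p j) (hg : ∀ i, ∑ j, (l1 ((rfl2 E hE).val i j) : ℝ) * p j
      ≤ 2 * |(((rfl2 E hE).val i (σ i)).coeff (g i) : ℝ)| * p (σ i)) : Blk E := by
  classical
  set A := rfl2 E hE with hA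
  have hs : ∀ i, ∃ ε : ℤ, ε * ε = 1 ∧ ε * (A.val i (σ i)).coeff (g i)
      = |(A.val i (σ i)).coeff (g i)| := by
    intro i
    rcases abs_choice ((A.val i (σ i)).coeff (g i)) with h1 | h1
    · exact ⟨1, by norm_num, by rw [h1, one_mul]⟩
    · exact ⟨-1, by norm_num, by rw [h1]; ring⟩
  choose ε hε1 hε2 using hs
  let D := dgs (fun i => (g i)⁻¹) ε hε1
  let P := pu (R := MonoidAlgebra ℤ Γ) σ.symm
  have hP : ∀ (X : Matrix κ κ (MonoidAlgebra ℤ Γ)) i j, (X * P.val) i j = X i (σ j) := by
    intro X i j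
    rw [Matrix.mul_apply, Finset.sum_eq_single (σ j)]
    · change X i (σ j) * (1 : Matrix κ κ (MonoidAlgebra ℤ Γ)) (σ.symm (σ j)) j = _
      rw [Equiv.symm_apply_apply, Matrix.one_apply_eq, mul_one]
    · intro k _ hk
      change X i k * (1 : Matrix κ κ (MonoidAlgebra ℤ Γ)) (σ.symm k) j = _
      rw [Matrix.one_apply_ne, mul_zero]
      intro h1
      exact hk (by rw [← h1, Equiv.apply_symm_apply])
    · simp
  have hD : ∀ i j, (D * A * P).val i j
      = MonoidAlgebra.single (g i)⁻¹ (ε i) * A.val i (σ j) := by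
    intro i j
    rw [Units.val_mul, hP, Units.val_mul]
    change (Matrix.diagonal (fun i => MonoidAlgebra.single (g i)⁻¹ (ε i)) * A.val) i (σ j) = _
    rw [Matrix.diagonal_mul]
  have hDc : ∀ i j x, ((D * A * P).val i j).coeff x = ε i * (A.val i (σ j)).coeff (g i * x) := by
    intro i j x
    rw [hD, MonoidAlgebra.coeff_single_mul_apply, inv_inv]
  have h1 : WDom (D * A * P).val (fun j => p (σ j)) := by
    refine ⟨fun j => hp _, fun i => ?_⟩
    have e1 : ((D * A * P).val i i).coeff 1 = |(A.val i (σ i)).coeff (g i)| := by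
      rw [hDc, ← hε2, mul_one]
    rw [e1]
    refine le_trans ?_ (le_trans (hg i) (le_of_eq (by push_cast; rfl)))
    rw [← Equiv.sum_comp σ (fun j => (l1 (A.val i j) : ℝ) * p j)]
    refine Finset.sum_le_sum fun j _ => mul_le_mul_of_nonneg_right ?_ (hp _).le
    rw [hD]
    have e2 := l1_single_mul (g i)⁻¹ (ε i) (A.val i (σ j))
    have e3 : (ε i).natAbs = 1 := by
      have := congrArg Int.natAbs (hε1 i)
      rw [Int.natAbs_mul] at this
      exact Nat.eq_one_of_mul_eq_one_left this
    rw [e3, one_mul] at e2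
    exact_mod_cast e2
  obtain ⟨r, w, hr1, hr2⟩ := (TT_wdom' _ κ rfl (D * A * P) _ h1).2
  have hεne : ∀ i, ε i ≠ 0 := by
    intro i h2
    have h3 := hε1 i
    rw [h2] at h3
    norm_num at h3
  have hodd : ∀ i, ((D * A * P).val i (σ.symm i)).coeff (g i)⁻¹ ≠ 0 := by
    intro i
    rw [hDc, Equiv.apply_symm_apply, mul_inv_cancel]
    refine mul_ne_zero (hεne i) ?_
    rw [hA, rfl2_coeff, if_pos ⟨rfl, rfl⟩]
    omega
  have hle : ∀ i, r (σ.symm i) ≤ r i := by
    intro i
    by_contra h2
    apply hodd i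
    rw [hr1 i (σ.symm i) (not_le.1 h2)]
    rfl
  have heq : ∀ i, r (σ.symm i) = r i := by
    have h2 : ∑ i, r (σ.symm i) = ∑ i, r i := Equiv.sum_comp σ.symm r
    intro i
    exact (Finset.sum_eq_sum_iff_of_le (fun i _ => hle i)).1 h2 i (Finset.mem_univ i)
  have hgw : ∀ i, (g i)⁻¹ = w i * (w (σ.symm i))⁻¹ := fun i =>
    hr2 i (σ.symm i) (heq i).symm _ (hodd i)
  -- the reflection is block triangular
  have hA1 : ∀ i m, r i < r m → A.val i m = 0 := by
    intro i m him
    ext x
    have h2 := hDc i (σ.symm m) ((g i)⁻¹ * x)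
    rw [Equiv.apply_symm_apply, mul_inv_cancel_left, hr1 i (σ.symm m) (by rw [heq]; exact him)] at h2
    have h3 : ε i * (A.val i m).coeff x = 0 := h2.symm
    rcases mul_eq_zero.1 h3 with h4 | h4
    · exact absurd h4 (hεne i)
    · exact h4
  have hA2 : ∀ i m, r i = r m → ∀ x, (A.val i m).coeff x ≠ 0 →
      x = w (σ.symm i) * (w (σ.symm m))⁻¹ := by
    intro i m him x hx
    have h2 := hDc i (σ.symm m) ((g i)⁻¹ * x)
    rw [Equiv.apply_symm_apply, mul_inv_cancel_left] at h2
    have h3 : ((D * A * P).val i (σ.symm m)).coeff ((g i)⁻¹ * x) ≠ 0 := by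
      rw [h2]
      exact mul_ne_zero (hεne i) hx
    have h4 := hr2 i (σ.symm m) (by rw [heq]; exact him) _ h3
    rw [hgw i, mul_assoc] at h4
    have h5 := mul_left_cancel h4
    rw [← h5, mul_inv_cancel_left]
  refine ⟨r, fun i => w (σ.symm i), fun i j hij => ?_, fun i j hij x hx => ?_⟩
  · ext x
    have h2 := hA1 i j hij
    have h3 := rfl2_coeff E hE i j x
    have hne : i ≠ j := by
      rintro rfl
      exact lt_irrefl _ hij
    rw [if_neg (fun hh => hne hh.1), ← hA, h2] at h3
    have h4 : (0 : ℤ) = 0 - 2 * (E i j).coeff x := h3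
    have h5 : (E i j).coeff x = 0 := by omega
    rw [h5]
    rfl
  · by_cases hh : i = j ∧ x = 1
    · obtain ⟨rfl, rfl⟩ := hh
      rw [mul_inv_cancel]
    · refine hA2 i j hij x ?_
      rw [hA, rfl2_coeff, if_neg hh]
      omega

end Pool.Agent.R719.WD
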