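import Pool.Agent.R719.WD.Pth

set_option autoImplicit false
set_option linter.unusedSectionVars false

/-! Weighted dominance over torsion-free groups: the main theorem. -/

namespace Pool.Agent.R719.WD

open Matrix TH57.Thr TH6.LF TH6.CX Pool.Agent.Y75.Th Pool.Agent.Y35.KC.TTm Pool.Agent.R719.DD

variable {Γ : Type} [Group Γ] {κ μ : Type} [Fintype κ] [DecidableEq κ] [Fintype μ]
  [DecidableEq μ]

/-- a matrix supported at `1` with a right inverse is invertible -/
theorem unit_of_trivial (B V : Matrix κ κ (MonoidAlgebra ℤ Γ))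
    (hB : ∀ i j g, (B i j).coeff g ≠ 0 → g = 1) (h : B * V = 1) :
    ∃ U : (Matrix κ κ (MonoidAlgebra ℤ Γ))ˣ, U.val = B ∧ TT (TU Γ) U := by
  classical
  have h1 : B = (B.map augZ).map (Int.castRingHom (MonoidAlgebra ℤ Γ)) := by
    ext1 i j
    change B i j = ((augZ (B i j) : ℤ) : MonoidAlgebra ℤ Γ)
    have h2 : B i j = MonoidAlgebra.single 1 ((B i j).coeff 1) := by
      ext g
      by_cases hg : g = 1
      · subst hg; simp
      · have h3 : (B i j).coeff g = 0 := by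
          by_contra h
          exact hg (hB i j g h)
        rw [h3, MonoidAlgebra.coeff_single, Finsupp.single_apply, if_neg (Ne.symm hg)]
    rw [h2]
    have h3 : augZ (MonoidAlgebra.single (1 : Γ) ((B i j).coeff 1)) = (B i j).coeff 1 := by
      change MonoidAlgebra.lift ℤ ℤ Γ (1 : Γ →* ℤ) _ = _
      simp
    rw [h3]
    exact (MonoidAlgebra.intCast_def _).symm
  have h2 : B.map augZ * V.map augZ = 1 := by
    rw [← Matrix.map_mul, h]
    simp [Matrix.map_one]
  have h3 : V.map augZ * B.map augZ = 1 := mul_eq_one_comm.1 h2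
  let V' : Matrix κ κ (MonoidAlgebra ℤ Γ) :=
    (V.map augZ).map (Int.castRingHom (MonoidAlgebra ℤ Γ))
  have h4 : B * V' = 1 := by
    rw [h1]
    change (B.map augZ).map (Int.castRingHom (MonoidAlgebra ℤ Γ))
      * (V.map augZ).map (Int.castRingHom (MonoidAlgebra ℤ Γ)) = 1
    rw [← Matrix.map_mul, h2]
    simp [Matrix.map_one]
  have h5 : V' * B = 1 := by
    rw [h1]
    change (V.map augZ).map (Int.castRingHom (MonoidAlgebra ℤ Γ))
      * (B.map augZ).map (Int.castRingHom (MonoidAlgebra ℤ Γ)) = 1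
    rw [← Matrix.map_mul, h3]
    simp [Matrix.map_one]
  exact ⟨⟨B, V', h4, h5⟩, rfl, TT_trivial _ hB⟩

theorem dgs_conj (A : Matrix κ κ (MonoidAlgebra ℤ Γ)) (w : κ → Γ) (he : ∀ _ : κ, (1 : ℤ) * 1 = 1)
    (i j : κ) (x : Γ) :
    (((dgs w (fun _ => 1) he)⁻¹.val * A * (dgs w (fun _ => 1) he).val) i j).coeff x
      = (A i j).coeff (w i * x * (w j)⁻¹) := by
  change ((Matrix.diagonal (fun i => MonoidAlgebra.single (w i)⁻¹ (1 : ℤ)) * A
    * Matrix.diagonal (fun i => MonoidAlgebra.single (w i) (1 : ℤ))) i j).coeff x = _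
  rw [Matrix.mul_diagonal, Matrix.diagonal_mul, MonoidAlgebra.coeff_mul_single_apply,
    MonoidAlgebra.coeff_single_mul_apply, inv_inv, one_mul, mul_one, mul_assoc]

/-- block triangular with integral diagonal blocks up to a diagonal matrix of group elements -/
def Blk (A : Matrix κ κ (MonoidAlgebra ℤ Γ)) : Prop :=
  ∃ (r : κ → ℕ) (w : κ → Γ), (∀ i j, r i < r j → A i j = 0) ∧
    ∀ i j, r i = r j → ∀ g, (A i j).coeff g ≠ 0 → g = w i * (w j)⁻¹

theorem TT_wdom (htf : ∀ g : Γ, ∀ k : ℕ, 0 < k → g ^ k = 1 → g = 1) :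
    ∀ (n : ℕ) (κ : Type) [Fintype κ] [DecidableEq κ], Fintype.card κ = n →
    ∀ (A : (Matrix κ κ (MonoidAlgebra ℤ Γ))ˣ) (p : κ → ℝ), WDom A.val p →
      TT (TU Γ) A ∧ Blk A.val := by
  intro n
  induction n using Nat.strong_induction_on with
  | _ n ih =>
  intro κ _ _ hn A p h
  classical
  by_cases hne : Nonempty κ
  swap
  · have hκ : IsEmpty κ := not_nonempty_iff.1 hne
    have : A = 1 := Units.ext (by ext1 i; exact isEmptyElim i)
    refine ⟨by rw [this]; exact TT_one _, fun _ => 0, fun _ => 1, fun i => isEmptyElim i,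
      fun i => isEmptyElim i⟩
  obtain ⟨C, hC1, hC2, hC3⟩ := exists_comp A h
  obtain ⟨w, hw⟩ := exists_gauge A h htf C hC1 hC2
  let e : {k // C k} ⊕ {k // ¬ C k} ≃ κ := Equiv.sumCompl C
  set A' := Units.map (re e) A with hA'
  let A1 : Matrix {k // C k} {k // C k} (MonoidAlgebra ℤ Γ) :=
    A.val.submatrix Subtype.val Subtype.val
  let A3 : Matrix {k // ¬ C k} {k // C k} (MonoidAlgebra ℤ Γ) :=
    A.val.submatrix Subtype.val Subtype.val
  let A4 : Matrix {k // ¬ C k} {k // ¬ C k} (MonoidAlgebra ℤ Γ) :=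
    A.val.submatrix Subtype.val Subtype.val
  have hA2 : ∀ j k, C j → ¬ C k → A.val j k = 0 := by
    intro j k hj hk
    have h1 : cmR A.val j k = 0 := by
      by_contra h2
      exact hk (hC3 j k hj h2)
    have hjk : j ≠ k := by
      rintro rfl
      exact hk hj
    rw [cmR_apply, if_neg hjk, zero_sub, neg_eq_zero] at h1
    exact (l1_zero_iff _).1 (by exact_mod_cast h1)
  have hA'v : A'.val = fromBlocks A1 0 A3 A4 := by
    ext1 x y
    rcases x with x | x <;> rcases y with y | y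
    · rfl
    · exact hA2 x y x.2 y.2
    · rfl
    · rfl
  set G' := A'⁻¹.val with hG'
  have hm1 : fromBlocks A1 0 A3 A4 * fromBlocks G'.toBlocks₁₁ G'.toBlocks₁₂ G'.toBlocks₂₁
      G'.toBlocks₂₂ = 1 := by
    rw [fromBlocks_toBlocks, ← hA'v, hG', A'.mul_inv]
  have hm2 : fromBlocks G'.toBlocks₁₁ G'.toBlocks₁₂ G'.toBlocks₂₁ G'.toBlocks₂₂
      * fromBlocks A1 0 A3 A4 = 1 := by
    rw [fromBlocks_toBlocks, ← hA'v, hG', A'.inv_mul]
  rw [fromBlocks_multiply, ← fromBlocks_one, fromBlocks_inj] at hm1 hm2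
  obtain ⟨m11, m12, m13, m14⟩ := hm1
  obtain ⟨m21, m22, m23, m24⟩ := hm2
  rw [Matrix.zero_mul, add_zero] at m11 m12
  rw [Matrix.mul_zero, zero_add] at m24
  -- the first block
  have he : ∀ _ : {k // C k}, (1 : ℤ) * 1 = 1 := fun _ => one_mul 1
  let W := dgs (fun k : {k // C k} => w k) (fun _ => 1) he
  obtain ⟨U1, hU1, hU2⟩ := unit_of_trivial (W⁻¹.val * A1 * W.val)
    (W⁻¹.val * G'.toBlocks₁₁ * W.val) (by
      intro i j x hx
      rw [dgs_conj A1 (fun k : {k // C k} => w k) he i j x] at hx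
      have h1 := hw i j i.2 j.2 _ hx
      have h2 := mul_right_cancel h1
      exact mul_eq_left.1 h2) (by
      calc W⁻¹.val * A1 * W.val * (W⁻¹.val * G'.toBlocks₁₁ * W.val)
          = W⁻¹.val * A1 * (W.val * W⁻¹.val) * G'.toBlocks₁₁ * W.val := by
            simp only [Matrix.mul_assoc]
        _ = W⁻¹.val * (A1 * G'.toBlocks₁₁) * W.val := by
            rw [W.mul_inv, Matrix.mul_one, Matrix.mul_assoc W⁻¹.val A1]
        _ = 1 := by rw [m11, Matrix.mul_one, W.inv_mul])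
  have ha1 : (W * U1 * W⁻¹).val = A1 := by
    rw [Units.val_mul, Units.val_mul, hU1]
    calc W.val * (W⁻¹.val * A1 * W.val) * W⁻¹.val
        = (W.val * W⁻¹.val) * A1 * (W.val * W⁻¹.val) := by simp only [Matrix.mul_assoc]
      _ = A1 := by rw [W.mul_inv, Matrix.one_mul, Matrix.mul_one]
  have hWT : TT (TU Γ) W := TT_of_mem _ _ (dgs_mem _ _ _)
  have ht1 : TT (TU Γ) (W * U1 * W⁻¹) :=
    TT_mul _ _ _ (TT_mul _ _ _ hWT hU2) (TT_inv _ _ hWT)
  -- the second block
  have hG2 : G'.toBlocks₁₂ = 0 := by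
    calc G'.toBlocks₁₂ = ((W * U1 * W⁻¹)⁻¹.val * (W * U1 * W⁻¹).val) * G'.toBlocks₁₂ := by
          rw [Units.inv_mul, Matrix.one_mul]
      _ = 0 := by rw [Matrix.mul_assoc, ha1, m12, Matrix.mul_zero]
  rw [hG2, Matrix.mul_zero, zero_add] at m14
  let U4 : (Matrix {k // ¬ C k} {k // ¬ C k} (MonoidAlgebra ℤ Γ))ˣ :=
    ⟨A4, G'.toBlocks₂₂, m14, m24⟩
  have hcard : Fintype.card {k // ¬ C k} < n := by
    rw [← hn]
    obtain ⟨i, hi⟩ := hC1
    exact Fintype.card_subtype_lt (x := i) (fun hh => hh hi)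
  obtain ⟨ht4, r, w', hr1, hr2⟩ : TT (TU Γ) U4 ∧ Blk U4.val := by
    refine ih _ hcard _ rfl U4 (fun k => p k) ⟨fun k => h.pos k, fun i => ?_⟩
    refine le_trans ?_ (h.row i)
    have h1 := Fintype.sum_subtype_add_sum_subtype (fun k => ¬ C k)
      (fun k => (l1 (A.val i k) : ℝ) * p k)
    rw [← h1]
    have h2 : (0 : ℝ) ≤ ∑ k : {k // ¬ ¬ C k}, (l1 (A.val i k) : ℝ) * p k :=
      Finset.sum_nonneg fun k _ => mul_nonneg (Nat.cast_nonneg _) (h.pos _).le
    have h3 : ∑ k : {k // ¬ C k}, (l1 (U4.val i k) : ℝ) * p k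
        = ∑ k : {k // ¬ C k}, (l1 (A.val i k) : ℝ) * p k := rfl
    rw [h3]
    linarith
  have ht : TT (TU Γ) A' := TT_tri (TU Γ) (W * U1 * W⁻¹) U4 A3 A' (by rw [hA'v, ha1]) ht1 ht4
  have h5 : A = Units.map (re e.symm) A' := by
    apply Units.ext
    ext1 x y
    change A.val x y = A.val (e (e.symm x)) (e (e.symm y))
    rw [Equiv.apply_symm_apply, Equiv.apply_symm_apply]
  refine ⟨by rw [h5]; exact TT_re _ _ _ ht, fun k => if hk : C k then 0 else r ⟨k, hk⟩ + 1,
    fun k => if hk : C k then w k else w' ⟨k, hk⟩, fun i j hij => ?_, fun i j hij g hg => ?_⟩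
  · dsimp only at hij
    by_cases hi : C i
    · by_cases hj : C j
      · rw [dif_pos hi, dif_pos hj] at hij
        exact absurd hij (lt_irrefl _)
      · exact hA2 i j hi hj
    · by_cases hj : C j
      · rw [dif_neg hi, dif_pos hj] at hij
        exact absurd hij (Nat.not_lt_zero _)
      · rw [dif_neg hi, dif_neg hj] at hij
        exact hr1 ⟨i, hi⟩ ⟨j, hj⟩ (by omega)
  · dsimp only at hij ⊢
    by_cases hi : C i
    · by_cases hj : C j
      · rw [dif_pos hi, dif_pos hj]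
        exact hw i j hi hj g hg
      · rw [dif_pos hi, dif_neg hj] at hij
        omega
    · by_cases hj : C j
      · rw [dif_neg hi, dif_pos hj] at hij
        omega
      · rw [dif_neg hi, dif_neg hj] at hij ⊢
        exact hr2 ⟨i, hi⟩ ⟨j, hj⟩ (by omega) g hg

end Pool.Agent.R719.WD
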