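import Pool.Agent.R719.WD.Ost
import Pool.Agent.R719.DD.Elim

set_option autoImplicit false
set_option linter.unusedSectionVars false

/-! Invertible matrices over integral group rings which are diagonally dominant with respect to
positive weights: the comparison matrix. -/

namespace Pool.Agent.R719.WD

open Matrix TH57.Thr TH6.LF TH6.CX Pool.Agent.Y75.Th Pool.Agent.Y35.KC.TTm Pool.Agent.R719.DD

variable {Γ : Type} [Group Γ] {κ : Type} [Fintype κ] [DecidableEq κ]

/-- dominance with weights -/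
structure WDom (A : Matrix κ κ (MonoidAlgebra ℤ Γ)) (p : κ → ℝ) : Prop where
  pos : ∀ i, 0 < p i
  row : ∀ i, ∑ j, (l1 (A i j) : ℝ) * p j ≤ 2 * ((A i i).coeff 1 : ℝ) * p i

/-- the matrix without its diagonal coefficients -/
noncomputable def Ao (A : Matrix κ κ (MonoidAlgebra ℤ Γ)) : Matrix κ κ (MonoidAlgebra ℤ Γ) :=
  A - Matrix.diagonal fun i => MonoidAlgebra.single 1 ((A i i).coeff 1)

/-- the comparison matrix -/
noncomputable def cm (A : Matrix κ κ (MonoidAlgebra ℤ Γ)) : Matrix κ κ ℤ :=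
  Matrix.of fun i j => (if i = j then 2 * (A i i).coeff 1 else 0) - (l1 (A i j) : ℤ)

noncomputable def cmR (A : Matrix κ κ (MonoidAlgebra ℤ Γ)) : Matrix κ κ ℝ :=
  (cm A).map (Int.castRingHom ℝ)

theorem cmR_apply (A : Matrix κ κ (MonoidAlgebra ℤ Γ)) (i j : κ) :
    cmR A i j = (if i = j then 2 * ((A i i).coeff 1 : ℝ) else 0) - (l1 (A i j) : ℝ) := by
  unfold cmR cm
  simp only [Matrix.map_apply, Matrix.of_apply]
  split_ifs <;> simp

theorem sum_cmR (A : Matrix κ κ (MonoidAlgebra ℤ Γ)) (i : κ) (x : κ → ℝ) :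
    ∑ j, cmR A i j * x j = 2 * ((A i i).coeff 1 : ℝ) * x i - ∑ j, (l1 (A i j) : ℝ) * x j := by
  simp only [cmR_apply, _root_.sub_mul, Finset.sum_sub_distrib, ite_mul, zero_mul]
  rw [Finset.sum_ite_eq Finset.univ i, if_pos (Finset.mem_univ i)]

theorem WDom.good {A : Matrix κ κ (MonoidAlgebra ℤ Γ)} {p : κ → ℝ} (h : WDom A p) :
    Good (cmR A) p where
  pos := h.pos
  off i j hij := by
    rw [cmR_apply, if_neg hij, zero_sub]
    exact neg_nonpos.2 (Nat.cast_nonneg _)
  row i := by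
    rw [sum_cmR]
    have := h.row i
    linarith

theorem WDom.a_nonneg {A : Matrix κ κ (MonoidAlgebra ℤ Γ)} {p : κ → ℝ} (h : WDom A p) (i : κ) :
    0 ≤ (A i i).coeff 1 := by
  have h1 : (0 : ℝ) ≤ 2 * ((A i i).coeff 1 : ℝ) * p i :=
    le_trans (Finset.sum_nonneg fun j _ => mul_nonneg (Nat.cast_nonneg _) (h.pos j).le) (h.row i)
  have h2 : (0 : ℝ) ≤ 2 * ((A i i).coeff 1 : ℝ) := nonneg_of_mul_nonneg_left h1 (h.pos i)
  have h3 : (0 : ℝ) ≤ ((A i i).coeff 1 : ℝ) := by linarith
  exact_mod_cast h3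

/-! ### augmentation and norms -/

theorem aug_eq (x : MonoidAlgebra ℤ Γ) : augZ x = ∑ g ∈ x.coeff.support, x.coeff g := by
  change MonoidAlgebra.lift ℤ ℤ Γ (1 : Γ →* ℤ) x = _
  rw [MonoidAlgebra.lift_apply, Finsupp.sum]
  exact Finset.sum_congr rfl fun g _ => by simp

theorem l1_abs (x : MonoidAlgebra ℤ Γ) : (l1 x : ℤ) = ∑ g ∈ x.coeff.support, |x.coeff g| :=
  l1_cast x _ (Finset.Subset.refl _)

theorem abs_aug_le (x : MonoidAlgebra ℤ Γ) : |augZ x| ≤ (l1 x : ℤ) := by
  rw [aug_eq, l1_abs]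
  exact Finset.abs_sum_le_sum_abs _ _

theorem nonneg_of_aug (x : MonoidAlgebra ℤ Γ) (h : (l1 x : ℤ) ≤ augZ x) (g : Γ) :
    0 ≤ x.coeff g := by
  rw [aug_eq, l1_abs] at h
  by_cases hg : g ∈ x.coeff.support
  · by_contra h1
    have h2 : ∑ g ∈ x.coeff.support, x.coeff g < ∑ g ∈ x.coeff.support, |x.coeff g| := by
      refine Finset.sum_lt_sum (fun g _ => le_abs_self _) ⟨g, hg, ?_⟩
      rw [abs_of_neg (not_le.1 h1)]
      have := not_le.1 h1
      linarith
    linarith
  · rw [Finsupp.notMem_support_iff.1 hg]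

/-- removing a coefficient -/
theorem l1_sub_single (x : MonoidAlgebra ℤ Γ) (g : Γ) :
    (l1 (x - MonoidAlgebra.single g (x.coeff g)) : ℤ) = l1 x - |x.coeff g| := by
  classical
  set T := insert g x.coeff.support with hT
  have hc : ∀ h, (x - MonoidAlgebra.single g (x.coeff g)).coeff h = if h = g then 0
      else x.coeff h := by
    intro h
    have h1 : (x - MonoidAlgebra.single g (x.coeff g)).coeff h
        = x.coeff h - (Finsupp.single g (x.coeff g)) h := by simp
    rw [h1, Finsupp.single_apply]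
    by_cases hh : h = g
    · subst hh; simp
    · rw [if_neg (Ne.symm hh), if_neg hh, sub_zero]
  rw [l1_cast x T (Finset.subset_insert _ _), l1_cast _ T (by
    intro h hh
    rw [Finsupp.mem_support_iff, hc] at hh
    by_cases h1 : h = g
    · rw [h1]; exact Finset.mem_insert_self _ _
    · rw [if_neg h1] at hh
      exact Finset.mem_insert_of_mem (Finsupp.mem_support_iff.2 hh))]
  have hg : g ∈ T := Finset.mem_insert_self _ _
  rw [← Finset.add_sum_erase T _ hg, ← Finset.add_sum_erase T (fun h => |x.coeff h|) hg, hc,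
    if_pos rfl, abs_zero, zero_add]
  have : ∑ h ∈ T.erase g, |(x - MonoidAlgebra.single g (x.coeff g)).coeff h|
      = ∑ h ∈ T.erase g, |x.coeff h| := by
    refine Finset.sum_congr rfl fun h hh => ?_
    rw [hc, if_neg (Finset.ne_of_mem_erase hh)]
  rw [this]
  ring

/-- adding a coefficient of the same sign -/
theorem l1_add_single (x : MonoidAlgebra ℤ Γ) (g : Γ) (c : ℤ) (h : 0 ≤ x.coeff g * c) :
    (l1 (x + MonoidAlgebra.single g c) : ℤ) = l1 x + |c| := by
  have h1 := l1_sub_single x g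
  have h2 := l1_sub_single (x + MonoidAlgebra.single g c) g
  have h3 : (x + MonoidAlgebra.single g c).coeff g = x.coeff g + c := by simp
  have h4 : x + MonoidAlgebra.single g c - MonoidAlgebra.single g (x.coeff g + c)
      = x - MonoidAlgebra.single g (x.coeff g) := by
    rw [MonoidAlgebra.single_add]
    abel
  rw [h3, h4, h1] at h2
  have h5 : |x.coeff g + c| = |x.coeff g| + |c| := by
    rcases le_or_gt 0 (x.coeff g) with h6 | h6
    · rcases h6.eq_or_lt with h7 | h7
      · rw [← h7]; simp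
      · have h8 : 0 ≤ c := nonneg_of_mul_nonneg_right h h7
        rw [abs_of_nonneg h6, abs_of_nonneg h8, abs_of_nonneg (by linarith)]
    · have h8 : c ≤ 0 := by
        by_contra h9
        have := mul_neg_of_neg_of_pos h6 (not_le.1 h9)
        linarith
      rw [abs_of_neg h6, abs_of_nonpos h8, abs_of_nonpos (by linarith)]
      ring
  linarith

theorem aug_ge (x : MonoidAlgebra ℤ Γ) : 2 * x.coeff 1 - (l1 x : ℤ) ≤ augZ x := by
  have h1 := abs_aug_le (x - MonoidAlgebra.single 1 (x.coeff 1))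
  rw [l1_sub_single, map_sub] at h1
  have h2 : augZ (MonoidAlgebra.single (1 : Γ) (x.coeff 1)) = x.coeff 1 := by
    change MonoidAlgebra.lift ℤ ℤ Γ (1 : Γ →* ℤ) _ = _
    simp
  rw [h2] at h1
  have h3 := (abs_le.1 h1).1
  have h4 := le_abs_self (x.coeff 1)
  linarith

/-! ### determinants -/

noncomputable def ag (A : Matrix κ κ (MonoidAlgebra ℤ Γ)) : Matrix κ κ ℝ :=
  (A.map augZ).map (Int.castRingHom ℝ)

theorem cmp_ag (A : Matrix κ κ (MonoidAlgebra ℤ Γ)) : Cmp (cmR A) (ag A) where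
  diag i := by
    rw [cmR_apply, if_pos rfl]
    change _ ≤ ((augZ (A i i) : ℤ) : ℝ)
    have := aug_ge (A i i)
    exact_mod_cast this
  off i j hij := by
    rw [cmR_apply, if_neg hij, zero_sub, neg_neg]
    change |((augZ (A i j) : ℤ) : ℝ)| ≤ _
    have := abs_aug_le (A i j)
    exact_mod_cast this

variable (A : (Matrix κ κ (MonoidAlgebra ℤ Γ))ˣ) {p : κ → ℝ} (h : WDom A.val p)

include h

theorem det_cm : (cm A.val).det = 1 ∧ (A.val.map augZ).det = 1 := by
  have h1 : (cmR A.val).det = (((cm A.val).det : ℤ) : ℝ) := by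
    unfold cmR
    exact (RingHom.map_det (Int.castRingHom ℝ) (cm A.val)).symm
  have h2 : (ag A.val).det = (((A.val.map augZ).det : ℤ) : ℝ) := by
    unfold ag
    exact (RingHom.map_det (Int.castRingHom ℝ) (A.val.map augZ)).symm
  obtain ⟨h3, h4⟩ := ost h.good (cmp_ag A.val)
  rw [h1] at h3 h4
  rw [h2] at h4
  have h5 : 0 ≤ (cm A.val).det := by exact_mod_cast h3
  have h6 : (cm A.val).det ≤ (A.val.map augZ).det := by exact_mod_cast h4
  have h7 : IsUnit (A.val.map augZ).det := by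
    rw [← Matrix.isUnit_iff_isUnit_det]
    refine ⟨⟨A.val.map augZ, A⁻¹.val.map augZ, ?_, ?_⟩, rfl⟩
    · rw [← Matrix.map_mul, A.mul_inv]
      simp [Matrix.map_one]
    · rw [← Matrix.map_mul, A.inv_mul]
      simp [Matrix.map_one]
  have h8 : (((cm A.val).det : ℤ) : ZMod 2) = (((A.val.map augZ).det : ℤ) : ZMod 2) := by
    have e1 := RingHom.map_det (Int.castRingHom (ZMod 2)) (cm A.val)
    have e2 := RingHom.map_det (Int.castRingHom (ZMod 2)) (A.val.map augZ)
    have e3 : (Int.castRingHom (ZMod 2)).mapMatrix (cm A.val)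
        = (Int.castRingHom (ZMod 2)).mapMatrix (A.val.map augZ) := by
      ext i j
      change (((cm A.val i j : ℤ)) : ZMod 2) = ((augZ (A.val i j) : ℤ) : ZMod 2)
      rw [aug_two]
      have h20 : (2 : ZMod 2) = 0 := rfl
      unfold cm
      simp only [Matrix.of_apply]
      split_ifs with hij
      · push_cast
        rw [h20, zero_mul, zero_sub, ZMod.neg_eq_self_mod_two]
      · push_cast
        rw [zero_sub, ZMod.neg_eq_self_mod_two]
    rw [e3] at e1
    exact e1.trans e2.symm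
  rcases Int.isUnit_iff.1 h7 with h9 | h9
  · rw [h9] at h6 h8
    refine ⟨?_, h9⟩
    have h10 : (cm A.val).det = 0 ∨ (cm A.val).det = 1 := by omega
    rcases h10 with h11 | h11
    · rw [h11] at h8
      exact absurd h8 (by decide)
    · exact h11
  · rw [h9] at h6
    exact absurd (h5.trans h6) (by norm_num)

theorem det_cmR : (cmR A.val).det = 1 := by
  have h1 : (cmR A.val).det = (((cm A.val).det : ℤ) : ℝ) := by
    unfold cmR
    exact (RingHom.map_det (Int.castRingHom ℝ) (cm A.val)).symm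
  rw [h1, (det_cm A h).1, Int.cast_one]

theorem det_ag : (ag A.val).det = 1 := by
  have h2 : (ag A.val).det = (((A.val.map augZ).det : ℤ) : ℝ) := by
    unfold ag
    exact (RingHom.map_det (Int.castRingHom ℝ) (A.val.map augZ)).symm
  rw [h2, (det_cm A h).2, Int.cast_one]

omit h in
/-- the inverse of the comparison matrix -/
noncomputable def NN (A : Matrix κ κ (MonoidAlgebra ℤ Γ)) : Matrix κ κ ℝ := (cmR A).adjugate

theorem mul_NN : cmR A.val * NN A.val = 1 := by
  unfold NN
  rw [Matrix.mul_adjugate, det_cmR A h, one_smul]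

theorem NN_mul : NN A.val * cmR A.val = 1 := by
  unfold NN
  rw [Matrix.adjugate_mul, det_cmR A h, one_smul]

theorem NN_nonneg (i j : κ) : 0 ≤ NN A.val i j := by
  refine mono h.good (by rw [det_cmR A h]; exact one_ne_zero) (fun k => NN A.val k j)
    (fun k => ?_) i
  have h1 := congrFun (congrFun (mul_NN A h) k) j
  rw [Matrix.mul_apply] at h1
  rw [h1, Matrix.one_apply]
  split_ifs <;> norm_num

/-- the matrix of the norms of the entries of the inverse -/
noncomputable def Gn (A : (Matrix κ κ (MonoidAlgebra ℤ Γ))ˣ) : Matrix κ κ ℝ :=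
  Matrix.of fun i j => (l1 (A⁻¹.val i j) : ℝ)

omit h in
theorem l1_nat_mul (m : ℤ) (hm : 0 ≤ m) (x : MonoidAlgebra ℤ Γ) :
    (l1 (MonoidAlgebra.single 1 m * x) : ℤ) = m * l1 x := by
  classical
  rw [l1_abs x, l1_cast (MonoidAlgebra.single 1 m * x) x.coeff.support (by
    intro g hg
    rw [Finsupp.mem_support_iff] at hg ⊢
    intro h1; apply hg
    rw [MonoidAlgebra.coeff_single_mul_apply, inv_one, one_mul, h1, mul_zero]), Finset.mul_sum]
  refine Finset.sum_congr rfl fun g _ => ?_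
  rw [MonoidAlgebra.coeff_single_mul_apply, inv_one, one_mul, abs_mul, abs_of_nonneg hm]

omit h in
theorem Ao_apply (A : Matrix κ κ (MonoidAlgebra ℤ Γ)) (i j : κ) :
    Ao A i j = A i j - if i = j then MonoidAlgebra.single 1 ((A i i).coeff 1) else 0 := by
  unfold Ao
  rw [Matrix.sub_apply, Matrix.diagonal_apply]

theorem l1_Ao (i j : κ) : (l1 (Ao A.val i j) : ℤ)
    = l1 (A.val i j) - if i = j then (A.val i i).coeff 1 else 0 := by
  rw [Ao_apply]
  by_cases hij : i = j
  · subst hij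
    rw [if_pos rfl, if_pos rfl, l1_sub_single, abs_of_nonneg (h.a_nonneg i)]
  · rw [if_neg hij, if_neg hij, sub_zero, sub_zero]

theorem cmR_Ao (i j : κ) : cmR A.val i j
    = (if i = j then ((A.val i i).coeff 1 : ℝ) else 0) - (l1 (Ao A.val i j) : ℝ) := by
  have h1 := l1_Ao A h i j
  have h2 : (l1 (Ao A.val i j) : ℝ)
      = l1 (A.val i j) - if i = j then ((A.val i i).coeff 1 : ℝ) else 0 := by
    have : ((l1 (Ao A.val i j) : ℤ) : ℝ) = (((l1 (A.val i j) : ℤ)
      - if i = j then (A.val i i).coeff 1 else 0 : ℤ) : ℝ) := by rw [h1]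
    push_cast at this
    exact this
  rw [cmR_apply, h2]
  split_ifs <;> ring

omit h in
/-- the equation for the inverse -/
theorem inv_eq (i j : κ) : MonoidAlgebra.single 1 ((A.val i i).coeff 1) * A⁻¹.val i j
    = (1 : Matrix κ κ (MonoidAlgebra ℤ Γ)) i j - ∑ k, Ao A.val i k * A⁻¹.val k j := by
  have h1 : (Matrix.diagonal fun i => MonoidAlgebra.single 1 ((A.val i i).coeff 1)) * A⁻¹.val
      = 1 - Ao A.val * A⁻¹.val := by
    unfold Ao
    rw [Matrix.sub_mul, A.mul_inv]
    abel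
  have h2 := congrFun (congrFun h1 i) j
  rw [Matrix.diagonal_mul, Matrix.sub_apply, Matrix.mul_apply] at h2
  exact h2

theorem sum_cm_Gn (i j : κ) : (cmR A.val * Gn A) i j
    = ((A.val i i).coeff 1 : ℝ) * l1 (A⁻¹.val i j)
      - ∑ k, (l1 (Ao A.val i k) : ℝ) * l1 (A⁻¹.val k j) := by
  rw [Matrix.mul_apply]
  simp only [cmR_Ao A h, _root_.sub_mul, Finset.sum_sub_distrib, ite_mul, zero_mul]
  rw [Finset.sum_ite_eq Finset.univ i, if_pos (Finset.mem_univ i)]
  rfl

omit h in
theorem l1_sum_le {ι : Type} (s : Finset ι) (f : ι → MonoidAlgebra ℤ Γ) :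
    l1 (∑ k ∈ s, f k) ≤ ∑ k ∈ s, l1 (f k) := by
  classical
  induction s using Finset.induction_on with
  | empty => simp [(l1_zero_iff (0 : MonoidAlgebra ℤ Γ)).2 rfl]
  | insert a s ha ih =>
    rw [Finset.sum_insert ha, Finset.sum_insert ha]
    exact (l1_add_le _ _).trans (Nat.add_le_add_left ih _)

omit h in
theorem l1_sub_le' (x y : MonoidAlgebra ℤ Γ) : l1 (x - y) ≤ l1 x + l1 y := by
  have := l1_add_le x (-y)
  rwa [l1_neg, ← sub_eq_add_neg] at this

omit h in
theorem l1_one_apply (i j : κ) : l1 ((1 : Matrix κ κ (MonoidAlgebra ℤ Γ)) i j)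
    = if i = j then 1 else 0 := by
  rw [Matrix.one_apply]
  split_ifs
  · exact l1_one
  · exact (l1_zero_iff _).2 rfl

theorem cm_Gn_le (i j : κ) : (cmR A.val * Gn A) i j ≤ if i = j then 1 else 0 := by
  rw [sum_cm_Gn A h]
  have h1 := l1_nat_mul _ (h.a_nonneg i) (A⁻¹.val i j)
  rw [inv_eq A] at h1
  have h2 := (l1_sub_le' ((1 : Matrix κ κ (MonoidAlgebra ℤ Γ)) i j)
    (∑ k, Ao A.val i k * A⁻¹.val k j)).trans (Nat.add_le_add_left ((l1_sum_le _ _).trans
      (Finset.sum_le_sum fun k _ => l1_mul_le _ _)) _)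
  rw [l1_one_apply] at h2
  have h3 : ((A.val i i).coeff 1 : ℤ) * l1 (A⁻¹.val i j) ≤ (if i = j then 1 else 0)
      + ∑ k, (l1 (Ao A.val i k) : ℤ) * l1 (A⁻¹.val k j) := by
    rw [← h1]; exact_mod_cast h2
  have h4 : ((A.val i i).coeff 1 : ℝ) * l1 (A⁻¹.val i j) ≤ (if i = j then 1 else 0)
      + ∑ k, (l1 (Ao A.val i k) : ℝ) * l1 (A⁻¹.val k j) := by exact_mod_cast h3
  linarith

theorem Gn_le (i j : κ) : Gn A i j ≤ NN A.val i j := by
  have h1 := mono h.good (by rw [det_cmR A h]; exact one_ne_zero)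
    (fun k => NN A.val k j - Gn A k j) (fun k => ?_) i
  · linarith
  have h1 := congrFun (congrFun (mul_NN A h) k) j
  have h2 := cm_Gn_le A h k j
  rw [Matrix.mul_apply] at h1 h2
  simp only [mul_sub, Finset.sum_sub_distrib]
  rw [h1, Matrix.one_apply]
  linarith

theorem NN_le_aug (i : κ) : NN A.val i i ≤ ((augZ (A⁻¹.val i i) : ℤ) : ℝ) := by
  have h1 : ag A.val * (A⁻¹.val.map augZ).map (Int.castRingHom ℝ) = 1 := by
    unfold ag
    rw [← Matrix.map_mul, ← Matrix.map_mul, A.mul_inv]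
    simp [Matrix.map_one]
  have h2 : (ag A.val).adjugate = (A⁻¹.val.map augZ).map (Int.castRingHom ℝ) := by
    have h3 := Matrix.adjugate_mul (ag A.val)
    rw [det_ag A h, one_smul] at h3
    calc (ag A.val).adjugate = (ag A.val).adjugate
          * (ag A.val * (A⁻¹.val.map augZ).map (Int.castRingHom ℝ)) := by rw [h1, Matrix.mul_one]
      _ = _ := by rw [← Matrix.mul_assoc, h3, Matrix.one_mul]
  have h3 : (ag A.val).adjugate i i = ((augZ (A⁻¹.val i i) : ℤ) : ℝ) := by rw [h2]; rfl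
  rw [← h3]
  unfold NN
  rw [Matrix.adjugate_apply, Matrix.adjugate_apply]
  refine (ost (p := p) ?_ ?_).2
  · refine ⟨h.pos, fun j k hjk => ?_, fun j => ?_⟩
    · by_cases hj : j = i
      · subst hj
        rw [Matrix.updateRow_self, Pi.single_eq_of_ne (Ne.symm hjk)]
      · rw [Matrix.updateRow_ne hj]
        exact h.good.off j k hjk
    · by_cases hj : j = i
      · subst hj
        rw [Finset.sum_eq_single j]
        · rw [Matrix.updateRow_self, Pi.single_eq_same, one_mul]
          exact (h.pos j).le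
        · intro k _ hk
          rw [Matrix.updateRow_self, Pi.single_eq_of_ne hk, zero_mul]
        · intro hh; exact absurd (Finset.mem_univ _) hh
      · rw [Matrix.updateRow_ne hj]
        exact h.good.row j
  · refine ⟨fun j => ?_, fun j k hjk => ?_⟩
    · by_cases hj : j = i
      · subst hj
        rw [Matrix.updateRow_self, Matrix.updateRow_self]
      · rw [Matrix.updateRow_ne hj, Matrix.updateRow_ne hj]
        exact (cmp_ag A.val).diag j
    · by_cases hj : j = i
      · subst hj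
        rw [Matrix.updateRow_self, Matrix.updateRow_self, Pi.single_eq_of_ne (Ne.symm hjk)]
        simp
      · rw [Matrix.updateRow_ne hj, Matrix.updateRow_ne hj]
        exact (cmp_ag A.val).off j k hjk

theorem Gn_diag (i : κ) : Gn A i i = NN A.val i i ∧ ∀ g, 0 ≤ (A⁻¹.val i i).coeff g := by
  have h1 := Gn_le A h i i
  have h2 := NN_le_aug A h i
  have h3 := abs_aug_le (A⁻¹.val i i)
  have h4 := le_abs_self (augZ (A⁻¹.val i i))
  have h5 : ((augZ (A⁻¹.val i i) : ℤ) : ℝ) ≤ Gn A i i := by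
    change _ ≤ (l1 (A⁻¹.val i i) : ℝ)
    exact_mod_cast h4.trans h3
  refine ⟨by linarith, nonneg_of_aug _ ?_⟩
  have h6 : (l1 (A⁻¹.val i i) : ℝ) ≤ ((augZ (A⁻¹.val i i) : ℤ) : ℝ) := h1.trans h2
  exact_mod_cast h6

/-- there is no cancellation -/
theorem exact_row (i j : κ) (hij : 0 < NN A.val i j) :
    (cmR A.val * Gn A) j i = if j = i then 1 else 0 := by
  have h1 : NN A.val * (1 - cmR A.val * Gn A) = NN A.val - Gn A := by
    rw [Matrix.mul_sub, Matrix.mul_one, ← Matrix.mul_assoc, NN_mul A h, Matrix.one_mul]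
  have h2 := congrFun (congrFun h1 i) i
  rw [Matrix.sub_apply, (Gn_diag A h i).1, sub_self, Matrix.mul_apply] at h2
  have h3 : ∀ k ∈ Finset.univ, 0 ≤ NN A.val i k * (1 - cmR A.val * Gn A) k i := by
    intro k _
    refine mul_nonneg (NN_nonneg A h i k) ?_
    rw [Matrix.sub_apply, Matrix.one_apply]
    have := cm_Gn_le A h k i
    linarith
  have h4 := (Finset.sum_eq_zero_iff_of_nonneg h3).1 h2 j (Finset.mem_univ j)
  rcases mul_eq_zero.1 h4 with h5 | h5
  · exact absurd h5 hij.ne'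
  · rw [Matrix.sub_apply, Matrix.one_apply] at h5
    linarith

end Pool.Agent.R719.WD
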