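import Mathlib

set_option autoImplicit false
set_option linter.unusedSectionVars false

/-! Ostrowski's determinant inequality for (possibly singular) M-matrices, and monotonicity. -/

namespace Pool.Agent.R719.WD

open Matrix

variable {κ μ : Type} [Fintype κ] [DecidableEq κ] [Fintype μ] [DecidableEq μ]

/-- a matrix with nonpositive off-diagonal entries which is nonnegative on a positive vector -/
structure Good (M : Matrix κ κ ℝ) (p : κ → ℝ) : Prop where
  pos : ∀ i, 0 < p i
  off : ∀ i j, i ≠ j → M i j ≤ 0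
  row : ∀ i, 0 ≤ ∑ j, M i j * p j

/-- `M` is a comparison matrix for `X` -/
structure Cmp (M X : Matrix κ κ ℝ) : Prop where
  diag : ∀ i, M i i ≤ X i i
  off : ∀ i j, i ≠ j → |X i j| ≤ - M i j

theorem Good.zero_row {M : Matrix κ κ ℝ} {p : κ → ℝ} (h : Good M p) (i : κ) (hi : M i i ≤ 0)
    (j : κ) : M i j = 0 := by
  have h1 : ∀ j, M i j * p j ≤ 0 := by
    intro j
    by_cases hij : i = j
    · subst hij
      exact mul_nonpos_of_nonpos_of_nonneg hi (h.pos i).le
    · exact mul_nonpos_of_nonpos_of_nonneg (h.off i j hij) (h.pos j).le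
  have h2 : ∑ j, M i j * p j = 0 := le_antisymm (Finset.sum_nonpos fun j _ => h1 j) (h.row i)
  have h3 := (Finset.sum_eq_zero_iff_of_nonpos (fun j _ => h1 j)).1 h2 j (Finset.mem_univ j)
  rcases mul_eq_zero.1 h3 with h4 | h4
  · exact h4
  · exact absurd h4 (h.pos j).ne'

theorem Good.reindex {M : Matrix κ κ ℝ} {p : κ → ℝ} (h : Good M p) (e : μ ≃ κ) :
    Good (M.submatrix e e) (p ∘ e) where
  pos i := h.pos _
  off i j hij := h.off _ _ fun hh => hij (e.injective hh)
  row i := by
    have h1 := e.sum_comp (fun j => M (e i) j * p j)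
    refine le_trans (h.row (e i)) (le_of_eq h1.symm)

theorem Cmp.reindex {M X : Matrix κ κ ℝ} (h : Cmp M X) (e : μ ≃ κ) :
    Cmp (M.submatrix e e) (X.submatrix e e) where
  diag i := h.diag _
  off i j hij := h.off _ _ fun hh => hij (e.injective hh)

/-- the Schur complement -/
noncomputable def sch {n : ℕ} (M : Matrix (Fin (n + 1)) (Fin (n + 1)) ℝ) :
    Matrix (Fin n) (Fin n) ℝ :=
  Matrix.of fun i j => M i.succ j.succ - M i.succ 0 * M 0 j.succ / M 0 0

theorem det_sch {n : ℕ} (M : Matrix (Fin (n + 1)) (Fin (n + 1)) ℝ) (h : M 0 0 ≠ 0) :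
    M.det = M 0 0 * (sch M).det := by
  let B : Matrix (Fin (n + 1)) (Fin (n + 1)) ℝ :=
    Matrix.of fun i j => if i = 0 then M 0 j else M i j - M i 0 / M 0 0 * M 0 j
  have h1 : M.det = B.det := by
    refine Matrix.det_eq_of_forall_row_eq_smul_add_const
      (fun i => if i = 0 then 0 else M i 0 / M 0 0) 0 (if_pos rfl) ?_
    intro i j
    simp only [B, Matrix.of_apply, if_true]
    by_cases hi : i = 0
    · subst hi; simp
    · rw [if_neg hi, if_neg hi]; ring
  rw [h1, Matrix.det_succ_column_zero, Finset.sum_eq_single 0]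
  · have h2 : B 0 0 = M 0 0 := by simp [B]
    have h3 : B.submatrix (Fin.succAbove 0) Fin.succ = sch M := by
      ext i j
      simp only [Matrix.submatrix_apply, B, Matrix.of_apply, sch, Fin.succAbove_zero]
      rw [if_neg (Fin.succ_ne_zero i)]
      ring
    rw [h2, h3]
    simp
  · intro i _ hi
    have h2 : B i 0 = 0 := by
      simp only [B, Matrix.of_apply]
      rw [if_neg hi]
      field_simp
      ring
    rw [h2]; simp
  · intro hh; exact absurd (Finset.mem_univ _) hh

theorem Good.sch {n : ℕ} {M : Matrix (Fin (n + 1)) (Fin (n + 1)) ℝ} {p : Fin (n + 1) → ℝ}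
    (h : Good M p) (h0 : 0 < M 0 0) : Good (sch M) (fun i => p i.succ) where
  pos i := h.pos _
  off i j hij := by
    have h1 := h.off i.succ j.succ (fun hh => hij (Fin.succ_injective _ hh))
    have h2 := h.off i.succ 0 (Fin.succ_ne_zero i)
    have h3 := h.off 0 j.succ (Fin.succ_ne_zero j).symm
    have h4 : 0 ≤ M i.succ 0 * M 0 j.succ / M 0 0 :=
      div_nonneg (mul_nonneg_of_nonpos_of_nonpos h2 h3) h0.le
    change M i.succ j.succ - M i.succ 0 * M 0 j.succ / M 0 0 ≤ 0
    linarith
  row i := by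
    have h1 := h.row i.succ
    have h2 := h.row 0
    rw [Fin.sum_univ_succ] at h1 h2
    have h3 : ∑ j : Fin n, WD.sch M i j * p j.succ
        = ∑ j : Fin n, M i.succ j.succ * p j.succ
          - M i.succ 0 / M 0 0 * ∑ j : Fin n, M 0 j.succ * p j.succ := by
      rw [Finset.mul_sum, ← Finset.sum_sub_distrib]
      refine Finset.sum_congr rfl fun j _ => ?_
      simp only [WD.sch, Matrix.of_apply]
      ring
    rw [h3]
    have h4 := h.off i.succ 0 (Fin.succ_ne_zero i)
    have h5 : 0 ≤ - (M i.succ 0 / M 0 0) := by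
      rw [← neg_div]; exact div_nonneg (by linarith) h0.le
    have h6 := mul_nonneg h5 h2
    have h7 : M i.succ 0 / M 0 0 * (M 0 0 * p 0) = M i.succ 0 * p 0 := by
      field_simp
    nlinarith

theorem Cmp.sch {n : ℕ} {M X : Matrix (Fin (n + 1)) (Fin (n + 1)) ℝ} (h : Cmp M X)
    (h0 : 0 < M 0 0) : Cmp (sch M) (sch X) := by
  have hX : M 0 0 ≤ X 0 0 := h.diag 0
  have hX0 : 0 < X 0 0 := lt_of_lt_of_le h0 hX
  have key : ∀ i j : Fin n, |X i.succ 0 * X 0 j.succ / X 0 0|
      ≤ M i.succ 0 * M 0 j.succ / M 0 0 := by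
    intro i j
    have h1 := h.off i.succ 0 (Fin.succ_ne_zero i)
    have h2 := h.off 0 j.succ (Fin.succ_ne_zero j).symm
    rw [abs_div, abs_mul, abs_of_pos hX0]
    have h3 : |X i.succ 0| * |X 0 j.succ| ≤ M i.succ 0 * M 0 j.succ := by
      have := mul_le_mul h1 h2 (abs_nonneg _) ((abs_nonneg _).trans h1)
      linarith
    exact div_le_div₀ ((mul_nonneg (abs_nonneg _) (abs_nonneg _)).trans h3) h3 h0 hX
  constructor
  · intro i
    have h1 := h.diag i.succ
    have h2 := le_trans (le_abs_self _) (key i i)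
    change M i.succ i.succ - M i.succ 0 * M 0 i.succ / M 0 0
      ≤ X i.succ i.succ - X i.succ 0 * X 0 i.succ / X 0 0
    linarith
  · intro i j hij
    have h1 := h.off i.succ j.succ (fun hh => hij (Fin.succ_injective _ hh))
    have h2 := key i j
    change |X i.succ j.succ - X i.succ 0 * X 0 j.succ / X 0 0|
      ≤ -(M i.succ j.succ - M i.succ 0 * M 0 j.succ / M 0 0)
    have h3 := abs_sub (X i.succ j.succ) (X i.succ 0 * X 0 j.succ / X 0 0)
    linarith

/-- Ostrowski's inequality -/
theorem ost_fin : ∀ (n : ℕ) (M X : Matrix (Fin n) (Fin n) ℝ) (p : Fin n → ℝ), Good M p →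
    Cmp M X → 0 ≤ M.det ∧ M.det ≤ X.det := by
  intro n
  induction n with
  | zero => intro M X p _ _; simp
  | succ n ih =>
    intro M X p hM hX
    rcases lt_or_ge 0 (M 0 0) with h0 | h0
    · have hX0 : M 0 0 ≤ X 0 0 := hX.diag 0
      rw [det_sch M h0.ne', det_sch X (lt_of_lt_of_le h0 hX0).ne']
      obtain ⟨h1, h2⟩ := ih _ _ _ (hM.sch h0) (hX.sch h0)
      exact ⟨mul_nonneg h0.le h1, mul_le_mul hX0 h2 h1 (h0.le.trans hX0)⟩
    · have h1 := hM.zero_row 0 h0
      have h2 : M.det = 0 := Matrix.det_eq_zero_of_row_eq_zero 0 h1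
      rw [h2]
      refine ⟨le_rfl, ?_⟩
      have h3 : ∀ j : Fin n, X 0 j.succ = 0 := by
        intro j
        have h4 := hX.off 0 j.succ (Fin.succ_ne_zero j).symm
        rw [h1, neg_zero] at h4
        exact abs_eq_zero.1 (le_antisymm h4 (abs_nonneg _))
      rw [Matrix.det_succ_row_zero, Fin.sum_univ_succ, Finset.sum_eq_zero (fun j _ => by
        rw [h3]; ring)]
      simp only [Fin.val_zero, pow_zero, one_mul, add_zero]
      have h5 : 0 ≤ X 0 0 := by
        have := hX.diag 0
        rw [h1] at this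
        exact this
      refine mul_nonneg h5 ?_
      let M' : Matrix (Fin n) (Fin n) ℝ := M.submatrix Fin.succ Fin.succ
      have h6 : Good M' (fun i => p i.succ) := by
        refine ⟨fun i => hM.pos _, fun i j hij => hM.off _ _ fun hh =>
          hij (Fin.succ_injective _ hh), fun i => ?_⟩
        have h7 := hM.row i.succ
        rw [Fin.sum_univ_succ] at h7
        have h8 : M i.succ 0 * p 0 ≤ 0 :=
          mul_nonpos_of_nonpos_of_nonneg (hM.off _ _ (Fin.succ_ne_zero i)) (hM.pos 0).le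
        have h9 : ∑ j, M' i j * p j.succ = ∑ j : Fin n, M i.succ j.succ * p j.succ := rfl
        rw [h9]
        linarith
      have h7 : Cmp M' (X.submatrix (Fin.succAbove 0) Fin.succ) := by
        rw [Fin.succAbove_zero]
        exact ⟨fun i => hX.diag _, fun i j hij => hX.off _ _ fun hh =>
          hij (Fin.succ_injective _ hh)⟩
      obtain ⟨h8, h9⟩ := ih _ _ _ h6 h7
      exact h8.trans h9

theorem ost {M X : Matrix κ κ ℝ} {p : κ → ℝ} (hM : Good M p) (hX : Cmp M X) :
    0 ≤ M.det ∧ M.det ≤ X.det := by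
  have e := (Fintype.equivFin κ).symm
  have h := ost_fin _ _ _ _ (hM.reindex e) (hX.reindex e)
  rwa [Matrix.det_submatrix_equiv_self, Matrix.det_submatrix_equiv_self] at h

theorem Good.self_cmp {M : Matrix κ κ ℝ} {p : κ → ℝ} (hM : Good M p) : Cmp M M where
  diag _ := le_rfl
  off i j hij := by rw [abs_of_nonpos (hM.off i j hij)]

theorem Good.det_nonneg {M : Matrix κ κ ℝ} {p : κ → ℝ} (hM : Good M p) : 0 ≤ M.det :=
  (ost hM hM.self_cmp).1

/-- monotonicity -/
theorem mono_fin : ∀ (n : ℕ) (M : Matrix (Fin n) (Fin n) ℝ) (p : Fin n → ℝ), Good M p →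
    M.det ≠ 0 → ∀ x : Fin n → ℝ, (∀ i, 0 ≤ ∑ j, M i j * x j) → ∀ i, 0 ≤ x i := by
  intro n
  induction n with
  | zero => intro M p _ _ x _ i; exact i.elim0
  | succ n ih =>
    intro M p hM hd x hx
    have h0 : 0 < M 0 0 := by
      by_contra h
      exact hd (Matrix.det_eq_zero_of_row_eq_zero 0 (hM.zero_row 0 (not_lt.1 h)))
    have hd' : (WD.sch M).det ≠ 0 := by
      intro h
      rw [det_sch M h0.ne', h, mul_zero] at hd
      exact hd rfl
    have h1 : ∀ i : Fin n, 0 ≤ x i.succ := by
      refine ih _ _ (hM.sch h0) hd' (fun i => x i.succ) fun i => ?_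
      have h2 := hx i.succ
      have h3 := hx 0
      rw [Fin.sum_univ_succ] at h2 h3
      have h4 : ∑ j : Fin n, WD.sch M i j * x j.succ
          = ∑ j : Fin n, M i.succ j.succ * x j.succ
            - M i.succ 0 / M 0 0 * ∑ j : Fin n, M 0 j.succ * x j.succ := by
        rw [Finset.mul_sum, ← Finset.sum_sub_distrib]
        refine Finset.sum_congr rfl fun j _ => ?_
        simp only [WD.sch, Matrix.of_apply]
        ring
      rw [h4]
      have h5 := hM.off i.succ 0 (Fin.succ_ne_zero i)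
      have h6 : 0 ≤ - (M i.succ 0 / M 0 0) := by
        rw [← neg_div]; exact div_nonneg (by linarith) h0.le
      have h7 := mul_nonneg h6 h3
      have h8 : M i.succ 0 / M 0 0 * (M 0 0 * x 0) = M i.succ 0 * x 0 := by
        field_simp
      nlinarith
    intro i
    refine Fin.cases ?_ h1 i
    have h3 := hx 0
    rw [Fin.sum_univ_succ] at h3
    have h4 : ∑ j : Fin n, M 0 j.succ * x j.succ ≤ 0 :=
      Finset.sum_nonpos fun j _ => mul_nonpos_of_nonpos_of_nonneg
        (hM.off _ _ (Fin.succ_ne_zero j).symm) (h1 j)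
    have h5 : 0 ≤ M 0 0 * x 0 := by linarith
    exact nonneg_of_mul_nonneg_right (by linarith) h0

theorem mono {M : Matrix κ κ ℝ} {p : κ → ℝ} (hM : Good M p) (hd : M.det ≠ 0) (x : κ → ℝ)
    (hx : ∀ i, 0 ≤ ∑ j, M i j * x j) (i : κ) : 0 ≤ x i := by
  let e := (Fintype.equivFin κ).symm
  have h := mono_fin _ _ _ (hM.reindex e) (by rwa [Matrix.det_submatrix_equiv_self]) (x ∘ e)
    (fun i => by
      have h1 := e.sum_comp (fun j => M (e i) j * x j)
      exact le_trans (hx (e i)) (le_of_eq h1.symm)) (e.symm i)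
  simpa using h

end Pool.Agent.R719.WD
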