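import Pool.Agent.R719.WD.Mat
import Pool.Agent.Y75.Th.Init
import Pool.Agent.TH57.Thr.Asm

set_option autoImplicit false
set_option linter.unusedSectionVars false

/-! Weighted dominance over torsion-free groups: trivial holonomy, and the main theorem. -/

namespace Pool.Agent.R719.WD

open Matrix TH57.Thr TH6.LF TH6.CX Pool.Agent.Y75.Th Pool.Agent.Y35.KC.TTm Pool.Agent.R719.DD

variable {Γ : Type} [Group Γ] {κ : Type} [Fintype κ] [DecidableEq κ]

section unit

variable (A : (Matrix κ κ (MonoidAlgebra ℤ Γ))ˣ) {p : κ → ℝ} (h : WDom A.val p)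

include h

/-- the norm equation -/
theorem norm_row (i j : κ) (hij : 0 < NN A.val i j) :
    ((A.val j j).coeff 1 : ℤ) * l1 (A⁻¹.val j i) = (if j = i then 1 else 0)
      + ∑ k, (l1 (Ao A.val j k) : ℤ) * l1 (A⁻¹.val k i) := by
  have h1 := exact_row A h i j hij
  rw [sum_cm_Gn A h] at h1
  have h2 : ((A.val j j).coeff 1 : ℝ) * l1 (A⁻¹.val j i) = (if j = i then 1 else 0)
      + ∑ k, (l1 (Ao A.val j k) : ℝ) * l1 (A⁻¹.val k i) := by linarith
  exact_mod_cast h2

/-- supports multiply -/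
theorem supp_mul (i j k : κ) (hij : 0 < NN A.val i j) (g x : Γ)
    (hg : (Ao A.val j k).coeff g ≠ 0) (hx : (A⁻¹.val k i).coeff x ≠ 0) :
    (A⁻¹.val j i).coeff (g * x) ≠ 0 := by
  intro hy
  set u := (Ao A.val j k).coeff g with hu
  set v := (A⁻¹.val k i).coeff x with hv
  have h1 := norm_row A h i j hij
  have h2 := inv_eq A j i
  have ha := h.a_nonneg j
  -- the perturbed left-hand side
  have e1 : (MonoidAlgebra.single 1 ((A.val j j).coeff 1) * A⁻¹.val j i).coeff (g * x) = 0 := by
    rw [MonoidAlgebra.coeff_single_mul_apply, inv_one, one_mul, hy, mul_zero]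
  have e2 := l1_add_single (MonoidAlgebra.single 1 ((A.val j j).coeff 1) * A⁻¹.val j i) (g * x)
    (u * v) (by rw [e1, zero_mul])
  rw [l1_nat_mul _ ha, h1] at e2
  -- the perturbed right-hand side
  have e3 : MonoidAlgebra.single 1 ((A.val j j).coeff 1) * A⁻¹.val j i
      + MonoidAlgebra.single (g * x) (u * v)
      = (1 : Matrix κ κ (MonoidAlgebra ℤ Γ)) j i
        - (∑ l ∈ Finset.univ.erase k, Ao A.val j l * A⁻¹.val l i
          + ((Ao A.val j k - MonoidAlgebra.single g u) * A⁻¹.val k i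
            + MonoidAlgebra.single g u * (A⁻¹.val k i - MonoidAlgebra.single x v))) := by
    rw [h2, ← Finset.add_sum_erase Finset.univ _ (Finset.mem_univ k), _root_.sub_mul, mul_sub,
      MonoidAlgebra.single_mul_single]
    abel
  rw [e3] at e2
  have e4 := l1_sub_single (Ao A.val j k) g
  have e5 := l1_sub_single (A⁻¹.val k i) x
  rw [← hu] at e4
  rw [← hv] at e5
  have e6 := l1_mul_le (Ao A.val j k - MonoidAlgebra.single g u) (A⁻¹.val k i)
  have e7 := l1_mul_le (MonoidAlgebra.single g u) (A⁻¹.val k i - MonoidAlgebra.single x v)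
  rw [l1_single] at e7
  have e8 := l1_add_le ((Ao A.val j k - MonoidAlgebra.single g u) * A⁻¹.val k i)
    (MonoidAlgebra.single g u * (A⁻¹.val k i - MonoidAlgebra.single x v))
  have e9 := l1_add_le (∑ l ∈ Finset.univ.erase k, Ao A.val j l * A⁻¹.val l i)
    ((Ao A.val j k - MonoidAlgebra.single g u) * A⁻¹.val k i
            + MonoidAlgebra.single g u * (A⁻¹.val k i - MonoidAlgebra.single x v))
  have e10 := l1_sub_le' ((1 : Matrix κ κ (MonoidAlgebra ℤ Γ)) j i)
    (∑ l ∈ Finset.univ.erase k, Ao A.val j l * A⁻¹.val l i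
      + ((Ao A.val j k - MonoidAlgebra.single g u) * A⁻¹.val k i
            + MonoidAlgebra.single g u * (A⁻¹.val k i - MonoidAlgebra.single x v)))
  rw [l1_one_apply] at e10
  have e11 := (l1_sum_le (Finset.univ.erase k) fun l => Ao A.val j l * A⁻¹.val l i).trans
    (Finset.sum_le_sum fun l _ => l1_mul_le _ _)
  have e12 := Finset.add_sum_erase Finset.univ
    (fun l => (l1 (Ao A.val j l) : ℤ) * l1 (A⁻¹.val l i)) (Finset.mem_univ k)
  have f6 : (l1 ((Ao A.val j k - MonoidAlgebra.single g u) * A⁻¹.val k i) : ℤ)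
      ≤ l1 (Ao A.val j k - MonoidAlgebra.single g u) * l1 (A⁻¹.val k i) := by exact_mod_cast e6
  have f7 : (l1 (MonoidAlgebra.single g u * (A⁻¹.val k i - MonoidAlgebra.single x v)) : ℤ)
      ≤ |u| * l1 (A⁻¹.val k i - MonoidAlgebra.single x v) := by
    rw [← Int.natCast_natAbs]; exact_mod_cast e7
  have f8 : (l1 ((Ao A.val j k - MonoidAlgebra.single g u) * A⁻¹.val k i
    + MonoidAlgebra.single g u * (A⁻¹.val k i - MonoidAlgebra.single x v)) : ℤ)
    ≤ l1 ((Ao A.val j k - MonoidAlgebra.single g u) * A⁻¹.val k i)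
      + l1 (MonoidAlgebra.single g u * (A⁻¹.val k i - MonoidAlgebra.single x v)) := by
    exact_mod_cast e8
  have f9 : (l1 (∑ l ∈ Finset.univ.erase k, Ao A.val j l * A⁻¹.val l i
    + ((Ao A.val j k - MonoidAlgebra.single g u) * A⁻¹.val k i
            + MonoidAlgebra.single g u * (A⁻¹.val k i - MonoidAlgebra.single x v))) : ℤ)
    ≤ l1 (∑ l ∈ Finset.univ.erase k, Ao A.val j l * A⁻¹.val l i)
      + l1 ((Ao A.val j k - MonoidAlgebra.single g u) * A⁻¹.val k i
            + MonoidAlgebra.single g u * (A⁻¹.val k i - MonoidAlgebra.single x v)) := by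
    exact_mod_cast e9
  have f10 : (l1 ((1 : Matrix κ κ (MonoidAlgebra ℤ Γ)) j i
      - (∑ l ∈ Finset.univ.erase k, Ao A.val j l * A⁻¹.val l i
      + ((Ao A.val j k - MonoidAlgebra.single g u) * A⁻¹.val k i
            + MonoidAlgebra.single g u * (A⁻¹.val k i - MonoidAlgebra.single x v)))) : ℤ)
      ≤ (if j = i then 1 else 0) + l1 (∑ l ∈ Finset.univ.erase k, Ao A.val j l * A⁻¹.val l i
      + ((Ao A.val j k - MonoidAlgebra.single g u) * A⁻¹.val k i
            + MonoidAlgebra.single g u * (A⁻¹.val k i - MonoidAlgebra.single x v))) := by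
    exact_mod_cast e10
  have f11 : (l1 (∑ l ∈ Finset.univ.erase k, Ao A.val j l * A⁻¹.val l i) : ℤ)
      ≤ ∑ l ∈ Finset.univ.erase k, (l1 (Ao A.val j l) : ℤ) * l1 (A⁻¹.val l i) := by
    exact_mod_cast e11
  rw [e4] at f6
  rw [e5] at f7
  rw [abs_mul] at e2
  have f13 : 0 < |u| * |v| := mul_pos (abs_pos.2 hg) (abs_pos.2 hx)
  nlinarith

/-- the diagonal entries of the inverse contain the identity -/
theorem supp_one (i : κ) : (A⁻¹.val i i).coeff 1 ≠ 0 := by
  intro hy
  have hii : 0 < NN A.val i i := by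
    have h1 := congrFun (congrFun (mul_NN A h) i) i
    rw [Matrix.mul_apply, Matrix.one_apply_eq, ← Finset.add_sum_erase _ _ (Finset.mem_univ i)] at h1
    have h2 : ∑ k ∈ Finset.univ.erase i, cmR A.val i k * NN A.val k i ≤ 0 :=
      Finset.sum_nonpos fun k hk => mul_nonpos_of_nonpos_of_nonneg
        (h.good.off i k (Ne.symm (Finset.ne_of_mem_erase hk))) (NN_nonneg A h k i)
    have h3 := NN_nonneg A h i i
    rcases h3.eq_or_lt with h4 | h4
    · rw [← h4] at h1
      linarith
    · exact h4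
  have h1 := norm_row A h i i hii
  have h2 := inv_eq A i i
  have ha := h.a_nonneg i
  have e1 : (MonoidAlgebra.single 1 ((A.val i i).coeff 1) * A⁻¹.val i i).coeff 1 = 0 := by
    rw [MonoidAlgebra.coeff_single_mul_apply, inv_one, one_mul, hy, mul_zero]
  have e2 := l1_add_single (MonoidAlgebra.single 1 ((A.val i i).coeff 1) * A⁻¹.val i i) 1
    (-1) (by rw [e1, zero_mul])
  rw [l1_nat_mul _ ha, h1, h2, Matrix.one_apply_eq, if_pos rfl] at e2
  have e3 : (1 : MonoidAlgebra ℤ Γ) - ∑ k, Ao A.val i k * A⁻¹.val k i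
      + MonoidAlgebra.single 1 (-1) = - ∑ k, Ao A.val i k * A⁻¹.val k i := by
    have : (MonoidAlgebra.single (1 : Γ) (-1 : ℤ)) = -1 := by
      rw [MonoidAlgebra.one_def, ← MonoidAlgebra.single_neg]
    rw [this]; abel
  rw [e3, l1_neg] at e2
  have e4 := (l1_sum_le Finset.univ fun l => Ao A.val i l * A⁻¹.val l i).trans
    (Finset.sum_le_sum fun l _ => l1_mul_le _ _)
  have e5 : (l1 (∑ l, Ao A.val i l * A⁻¹.val l i) : ℤ)
      ≤ ∑ l, (l1 (Ao A.val i l) : ℤ) * l1 (A⁻¹.val l i) := by exact_mod_cast e4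
  rw [e2] at e5
  norm_num at e5

theorem NN_diag_pos (i : κ) : 0 < NN A.val i i := by
  have h1 := (Gn_diag A h i).1
  rw [← h1]
  change (0 : ℝ) < (l1 (A⁻¹.val i i) : ℝ)
  have h2 := supp_one A h i
  have h3 : l1 (A⁻¹.val i i) ≠ 0 := by
    intro h4
    rw [(l1_zero_iff _).1 h4] at h2
    exact h2 rfl
  exact_mod_cast Nat.pos_of_ne_zero h3

/-- positivity propagates along the edges -/
theorem NN_edge (i j k : κ) (hij : 0 < NN A.val i j) (hjk : cmR A.val j k ≠ 0) :
    0 < NN A.val i k := by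
  by_cases hjk' : j = k
  · rwa [← hjk']
  by_cases hik : i = k
  · rw [hik]; exact NN_diag_pos A h k
  rcases (NN_nonneg A h i k).eq_or_lt with h1 | h1
  · exfalso
    have h2 := congrFun (congrFun (NN_mul A h) i) k
    rw [Matrix.mul_apply, Matrix.one_apply_ne hik] at h2
    have h3 : ∀ l, NN A.val i l * cmR A.val l k ≤ 0 := by
      intro l
      by_cases hl : l = k
      · rw [hl, ← h1, zero_mul]
      · exact mul_nonpos_of_nonneg_of_nonpos (NN_nonneg A h i l) (h.good.off l k hl)
    have h4 := (Finset.sum_eq_zero_iff_of_nonpos (fun l _ => h3 l)).1 h2 j (Finset.mem_univ j)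
    rcases mul_eq_zero.1 h4 with h5 | h5
    · exact hij.ne' h5
    · exact hjk h5
  · exact h1

/-- closed sets of indices -/
theorem NN_closed (R : κ → Prop) (hR : ∀ j k, R j → ¬ R k → cmR A.val j k = 0) (j k : κ)
    (hj : R j) (hk : ¬ R k) : NN A.val j k = 0 := by
  classical
  refine le_antisymm ?_ (NN_nonneg A h j k)
  have h1 := mono h.good (by rw [det_cmR A h]; exact one_ne_zero)
    (fun l => if R l then - NN A.val l k else NN A.val l k) (fun i => ?_) j
  · rw [if_pos hj] at h1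
    linarith
  have h2 := congrFun (congrFun (mul_NN A h) i) k
  rw [Matrix.mul_apply] at h2
  by_cases hi : R i
  · have h3 : ∑ l, cmR A.val i l * (if R l then - NN A.val l k else NN A.val l k)
        = - ∑ l, cmR A.val i l * NN A.val l k := by
      rw [← Finset.sum_neg_distrib]
      refine Finset.sum_congr rfl fun l _ => ?_
      by_cases hl : R l
      · rw [if_pos hl]; ring
      · rw [if_neg hl, hR i l hi hl]; ring
    have hik : i ≠ k := by
      rintro rfl
      exact hk hi
    rw [h3, h2, Matrix.one_apply_ne hik, neg_zero]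
  · have h3 : ∑ l, cmR A.val i l * NN A.val l k
        ≤ ∑ l, cmR A.val i l * (if R l then - NN A.val l k else NN A.val l k) := by
      refine Finset.sum_le_sum fun l _ => ?_
      by_cases hl : R l
      · rw [if_pos hl]
        have h4 := h.good.off i l (fun hh => hi (hh ▸ hl))
        have h5 := NN_nonneg A h l k
        nlinarith
      · rw [if_neg hl]
    rw [h2, Matrix.one_apply] at h3
    refine le_trans ?_ h3
    split_ifs <;> norm_num

omit h in
theorem cmR_ne (j k : κ) (h : WDom A.val p) (g : Γ) (hjk : j ≠ k)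
    (hg : (Ao A.val j k).coeff g ≠ 0) : cmR A.val j k ≠ 0 := by
  intro h1
  rw [cmR_Ao A h, if_neg hjk, zero_sub, neg_eq_zero] at h1
  have h2 : l1 (Ao A.val j k) = 0 := by exact_mod_cast h1
  rw [(l1_zero_iff _).1 h2] at hg
  exact hg rfl

omit h in
theorem exists_edge (j k : κ) (h : WDom A.val p) (hjk : j ≠ k) (h1 : cmR A.val j k ≠ 0) :
    ∃ g, (Ao A.val j k).coeff g ≠ 0 := by
  by_contra hh
  push Not at hh
  apply h1
  have h2 : Ao A.val j k = 0 := by
    ext g
    rw [hh g]
    rfl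
  rw [cmR_Ao A h, if_neg hjk, h2, (l1_zero_iff (0 : MonoidAlgebra ℤ Γ)).2 rfl]
  simp

end unit

/-- paths with their holonomies -/
inductive Pth (A : Matrix κ κ (MonoidAlgebra ℤ Γ)) (t : κ) : κ → Γ → Prop
  | nil : Pth A t t 1
  | cons {j k : κ} {g x : Γ} : (Ao A j k).coeff g ≠ 0 → Pth A t k x → Pth A t j (g * x)

theorem Pth.concat {A : Matrix κ κ (MonoidAlgebra ℤ Γ)} {t t' : κ} {x : Γ}
    (h' : Pth A t' t x) {j : κ} {g : Γ} (h : Pth A t j g) : Pth A t' j (g * x) := by
  induction h with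
  | nil => rw [one_mul]; exact h'
  | cons h1 _ ih => rw [mul_assoc]; exact Pth.cons h1 ih

theorem Pth.pow {A : Matrix κ κ (MonoidAlgebra ℤ Γ)} {t : κ} {x : Γ} (h : Pth A t t x) (n : ℕ) :
    Pth A t t (x ^ n) := by
  induction n with
  | zero => rw [pow_zero]; exact Pth.nil
  | succ n ih => rw [pow_succ']; exact ih.concat h

section unit2

variable (A : (Matrix κ κ (MonoidAlgebra ℤ Γ))ˣ) {p : κ → ℝ} (h : WDom A.val p)

include h

theorem Pth.supp {i j : κ} {g : Γ} (hP : Pth A.val i j g) (hij : 0 < NN A.val i j) :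
    (A⁻¹.val j i).coeff g ≠ 0 := by
  induction hP with
  | nil => exact supp_one A h i
  | @cons j k g x h1 h2 ih =>
    refine supp_mul A h i j k hij g x h1 (ih ?_)
    by_cases hjk : j = k
    · rwa [← hjk]
    · exact NN_edge A h i j k hij (cmR_ne A j k h g hjk h1)

/-- closed paths have trivial holonomy -/
theorem Pth.trivial (htf : ∀ g : Γ, ∀ k : ℕ, 0 < k → g ^ k = 1 → g = 1) {i : κ} {g : Γ}
    (hP : Pth A.val i i g) : g = 1 := by
  have h1 : ∀ n : ℕ, g ^ n ∈ (A⁻¹.val i i).coeff.support := fun n =>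
    Finsupp.mem_support_iff.2 ((hP.pow n).supp A h (NN_diag_pos A h i))
  have h2 : ¬ Function.Injective (fun n : ℕ => (⟨g ^ n, h1 n⟩ :
      ((A⁻¹.val i i).coeff.support : Set Γ))) := not_injective_infinite_finite _
  rw [Function.not_injective_iff] at h2
  obtain ⟨a, b, hab, hne⟩ := h2
  have h3 : g ^ a = g ^ b := congrArg Subtype.val hab
  rcases lt_or_gt_of_ne hne with h4 | h4
  · refine htf g (b - a) (Nat.sub_pos_of_lt h4) ?_
    have h5 : g ^ b = g ^ a * g ^ (b - a) := by rw [← pow_add]; congr 1; omega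
    rw [h5] at h3
    exact (mul_eq_left.1 h3.symm)
  · refine htf g (a - b) (Nat.sub_pos_of_lt h4) ?_
    have h5 : g ^ a = g ^ b * g ^ (a - b) := by rw [← pow_add]; congr 1; omega
    rw [h5] at h3
    exact (mul_eq_left.1 h3)

theorem exists_pth (i j : κ) (hji : 0 < NN A.val j i) : ∃ g, Pth A.val i j g := by
  by_contra hh
  have h1 := NN_closed A h (fun l => ¬ ∃ g, Pth A.val i l g) (fun l k hl hk => by
    rw [not_not] at hk
    obtain ⟨x, hx⟩ := hk
    by_contra h2
    have hlk : l ≠ k := by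
      rintro rfl
      exact hl ⟨x, hx⟩
    obtain ⟨g, hg⟩ := exists_edge A l k h hlk h2
    exact hl ⟨_, Pth.cons hg hx⟩) j i hh (fun hi => hi ⟨1, Pth.nil⟩)
  exact hji.ne' h1

theorem NN_trans (i j k : κ) (hij : 0 < NN A.val i j) (hjk : 0 < NN A.val j k) :
    0 < NN A.val i k := by
  by_contra hh
  have h1 := NN_closed A h (fun l => 0 < NN A.val i l) (fun l m hl hm => by
    by_contra h2
    exact hm (NN_edge A h i l m hl h2)) j k hij hh
  exact hjk.ne' h1

/-- a terminal component -/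
theorem exists_comp [Nonempty κ] : ∃ C : κ → Prop, (∃ i, C i) ∧
    (∀ j k, C j → C k → 0 < NN A.val j k) ∧ ∀ j k, C j → cmR A.val j k ≠ 0 → C k := by
  classical
  obtain ⟨i, _, hi⟩ := Finset.exists_min_image (Finset.univ : Finset κ)
    (fun i => (Finset.univ.filter fun j => 0 < NN A.val i j).card) Finset.univ_nonempty
  have h1 : ∀ j, 0 < NN A.val i j → 0 < NN A.val j i := by
    intro j hj
    have h2 : (Finset.univ.filter fun k => 0 < NN A.val j k)
        ⊆ (Finset.univ.filter fun k => 0 < NN A.val i k) := by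
      intro k hk
      rw [Finset.mem_filter] at hk ⊢
      exact ⟨hk.1, NN_trans A h i j k hj hk.2⟩
    have h3 := Finset.eq_of_subset_of_card_le h2 (hi j (Finset.mem_univ j))
    have h4 : i ∈ (Finset.univ.filter fun k => 0 < NN A.val i k) :=
      Finset.mem_filter.2 ⟨Finset.mem_univ _, NN_diag_pos A h i⟩
    rw [← h3, Finset.mem_filter] at h4
    exact h4.2
  refine ⟨fun j => 0 < NN A.val i j, ⟨i, NN_diag_pos A h i⟩, fun j k hj hk => ?_,
    fun j k hj hjk => NN_edge A h i j k hj hjk⟩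
  exact NN_trans A h j i k (h1 j hj) hk

/-- the gauge on a component -/
theorem exists_gauge (htf : ∀ g : Γ, ∀ k : ℕ, 0 < k → g ^ k = 1 → g = 1) (C : κ → Prop)
    (hC0 : ∃ i, C i) (hC : ∀ j k, C j → C k → 0 < NN A.val j k) :
    ∃ w : κ → Γ, ∀ j k, C j → C k → ∀ g, (A.val j k).coeff g ≠ 0 → g = w j * (w k)⁻¹ := by
  classical
  obtain ⟨i, hi⟩ := hC0
  have h1 : ∀ j, ∃ g, C j → Pth A.val i j g := by
    intro j
    by_cases hj : C j
    · obtain ⟨g, hg⟩ := exists_pth A h i j (hC j i hj hi)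
      exact ⟨g, fun _ => hg⟩
    · exact ⟨1, fun hh => absurd hh hj⟩
  choose w hw using h1
  have h2 : ∀ j k, C j → C k → ∀ g, (Ao A.val j k).coeff g ≠ 0 → g = w j * (w k)⁻¹ := by
    intro j k hj hk g hg
    obtain ⟨v, hv⟩ := exists_pth A h j i (hC i j hi hj)
    have e1 : v * w j = 1 := ((hw j hj).concat hv).trivial A h htf
    have e2 : v * (g * w k) = 1 := ((Pth.cons hg (hw k hk)).concat hv).trivial A h htf
    have e3 : w j = g * w k := mul_left_cancel (e1.trans e2.symm)
    rw [e3, mul_inv_cancel_right]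
  refine ⟨w, fun j k hj hk g hg => ?_⟩
  by_cases hA : (Ao A.val j k).coeff g = 0
  · rw [Ao_apply] at hA
    by_cases hjk : j = k
    · subst hjk
      rw [if_pos rfl] at hA
      by_cases hg1 : g = 1
      · rw [hg1, mul_inv_cancel]
      · exfalso
        apply hg
        have e1 : (A.val j j - MonoidAlgebra.single 1 ((A.val j j).coeff 1)).coeff g
            = (A.val j j).coeff g - (Finsupp.single 1 ((A.val j j).coeff 1) : Γ →₀ ℤ) g := by simp
        rw [e1, Finsupp.single_apply, if_neg (Ne.symm hg1), sub_zero] at hA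
        exact hA
    · rw [if_neg hjk, sub_zero] at hA
      exact absurd hA hg
  · exact h2 j k hj hk g hA

end unit2

end Pool.Agent.R719.WD
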